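import Mathlib

set_option autoImplicit false

namespace Pool.Agent.U445.EvenTriple

open Finset

/-- First moment over all samples of size `s` of a mean-zero function. -/
theorem first_moment {n : ℕ} (g : Fin n → ℝ) (hg : ∑ k, g k = 0) (s : ℕ) :
    ∑ K : Fin s → Fin n, ∑ l, g (K l) = 0 := by
  induction s with
  | zero => simp
  | succ s ih =>
    rw [← (Fin.consEquiv (fun _ : Fin (s + 1) => Fin n)).sum_comp, Fintype.sum_prod_type]
    simp only [Fin.consEquiv_apply, Fin.sum_univ_succ, Fin.cons_zero, Fin.cons_succ]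
    simp only [Finset.sum_add_distrib, ih, add_zero]
    simp only [Finset.sum_const, ← Finset.smul_sum, hg, smul_zero]

/-- Second moment over all samples of size `s` of a mean-zero function. -/
theorem second_moment {n : ℕ} (g : Fin n → ℝ) (hg : ∑ k, g k = 0) (s : ℕ) :
    (n : ℝ) * ∑ K : Fin s → Fin n, (∑ l, g (K l)) ^ 2 = s * (n : ℝ) ^ s * ∑ k, g k ^ 2 := by
  induction s with
  | zero => simp
  | succ s ih =>
    rw [← (Fin.consEquiv (fun _ : Fin (s + 1) => Fin n)).sum_comp, Fintype.sum_prod_type]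
    simp only [Fin.consEquiv_apply, Fin.sum_univ_succ, Fin.cons_zero, Fin.cons_succ]
    have h1 : ∀ k : Fin n, ∑ K : Fin s → Fin n, (g k + ∑ l, g (K l)) ^ 2
        = (n : ℝ) ^ s * g k ^ 2 + ∑ K : Fin s → Fin n, (∑ l, g (K l)) ^ 2 := by
      intro k
      have h2 : ∀ K : Fin s → Fin n, (g k + ∑ l, g (K l)) ^ 2
          = g k ^ 2 + 2 * g k * (∑ l, g (K l)) + (∑ l, g (K l)) ^ 2 := by
        intro K; ring
      simp only [h2, Finset.sum_add_distrib]
      rw [← Finset.mul_sum, first_moment g hg s]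
      simp
    simp only [h1, Finset.sum_add_distrib]
    rw [← Finset.mul_sum]
    simp only [Finset.sum_const, Finset.card_univ, Fintype.card_fin, nsmul_eq_mul]
    rw [mul_add, ih]
    push_cast
    ring

theorem second_moment_le {n : ℕ} (f : Fin n → ℝ) (hf0 : ∀ k, 0 ≤ f k) (hf1 : ∀ k, f k ≤ 1)
    (hn : 0 < n) (s : ℕ) (hs : 0 < s) :
    ∑ K : Fin s → Fin n, ((∑ l, f (K l)) / s - (∑ k, f k) / n) ^ 2 ≤ (n : ℝ) ^ s / s := by
  have hn' : (0 : ℝ) < n := by exact_mod_cast hn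
  have hs' : (0 : ℝ) < s := by exact_mod_cast hs
  set μ : ℝ := (∑ k, f k) / n with hμ
  have hμ0 : 0 ≤ μ := div_nonneg (Finset.sum_nonneg fun k _ => hf0 k) hn'.le
  have hμ1 : μ ≤ 1 := by
    rw [hμ, div_le_one hn']
    calc ∑ k, f k ≤ ∑ k : Fin n, (1 : ℝ) := Finset.sum_le_sum fun k _ => hf1 k
      _ = n := by simp
  have hg : ∑ k, (f k - μ) = 0 := by
    rw [Finset.sum_sub_distrib]
    simp only [Finset.sum_const, Finset.card_univ, Fintype.card_fin, nsmul_eq_mul]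
    rw [hμ]; field_simp; ring
  have hT := second_moment (fun k => f k - μ) hg s
  have hsq : ∑ k, (f k - μ) ^ 2 ≤ n := by
    calc ∑ k, (f k - μ) ^ 2 ≤ ∑ k : Fin n, (1 : ℝ) := by
          refine Finset.sum_le_sum fun k _ => ?_
          have h1 := hf0 k; have h2 := hf1 k
          nlinarith
      _ = n := by simp
  have hT2 : ∑ K : Fin s → Fin n, (∑ l, (f (K l) - μ)) ^ 2 ≤ s * (n : ℝ) ^ s := by
    have : (n : ℝ) * ∑ K : Fin s → Fin n, (∑ l, (f (K l) - μ)) ^ 2 ≤ n * (s * (n : ℝ) ^ s) := by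
      rw [hT]
      have : (s : ℝ) * (n : ℝ) ^ s * ∑ k, (f k - μ) ^ 2 ≤ (s : ℝ) * (n : ℝ) ^ s * n :=
        mul_le_mul_of_nonneg_left hsq (by positivity)
      linarith
    exact le_of_mul_le_mul_left this hn'
  have heq : ∀ K : Fin s → Fin n, ((∑ l, f (K l)) / s - μ) ^ 2
      = (∑ l, (f (K l) - μ)) ^ 2 / (s : ℝ) ^ 2 := by
    intro K
    rw [Finset.sum_sub_distrib]
    simp only [Finset.sum_const, Finset.card_univ, Fintype.card_fin, nsmul_eq_mul]
    field_simp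
  simp only [heq]
  rw [← Finset.sum_div, div_le_div_iff₀ (by positivity) hs']
  nlinarith [pow_pos hn' s]

/-- A good sample exists for a whole family of `[0,1]`-valued functions. -/
theorem exists_sample {n : ℕ} (hn : 0 < n) (s : ℕ) (hs : 0 < s)
    (f : Fin n → Fin n → Fin n → ℝ) (hf0 : ∀ i j k, 0 ≤ f i j k) (hf1 : ∀ i j k, f i j k ≤ 1) :
    ∃ K : Fin s → Fin n, ∑ i, ∑ j, ((∑ l, f i j (K l)) / s - (∑ k, f i j k) / n) ^ 2
      ≤ (n : ℝ) ^ 2 / s := by
  have hn' : (0 : ℝ) < n := by exact_mod_cast hn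
  have hs' : (0 : ℝ) < s := by exact_mod_cast hs
  haveI : Nonempty (Fin n) := ⟨⟨0, hn⟩⟩
  obtain ⟨K, _, hK⟩ := Finset.exists_le_of_sum_le (s := (Finset.univ : Finset (Fin s → Fin n)))
    (f := fun K => ∑ i, ∑ j, ((∑ l, f i j (K l)) / s - (∑ k, f i j k) / n) ^ 2)
    (g := fun _ => (n : ℝ) ^ 2 / s) Finset.univ_nonempty (by
      rw [Finset.sum_comm]
      calc ∑ i, ∑ K : Fin s → Fin n, ∑ j, ((∑ l, f i j (K l)) / s - (∑ k, f i j k) / n) ^ 2
          = ∑ i, ∑ j, ∑ K : Fin s → Fin n, ((∑ l, f i j (K l)) / s - (∑ k, f i j k) / n) ^ 2 := by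
            refine Finset.sum_congr rfl fun i _ => ?_
            rw [Finset.sum_comm]
        _ ≤ ∑ i : Fin n, ∑ j : Fin n, (n : ℝ) ^ s / s := by
            refine Finset.sum_le_sum fun i _ => Finset.sum_le_sum fun j _ => ?_
            exact second_moment_le (f i j) (hf0 i j) (hf1 i j) hn s hs
        _ = ∑ K : Fin s → Fin n, (n : ℝ) ^ 2 / s := by
            simp only [Finset.sum_const, Finset.card_univ, Fintype.card_fin, nsmul_eq_mul,
              Fintype.card_fun, Nat.cast_pow]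
            ring)
  exact ⟨K, hK⟩

/-- `L¹` version. -/
theorem exists_sample_abs {n : ℕ} (hn : 0 < n) (s : ℕ) (hs : 0 < s) (θ : ℝ) (hθ : 0 < θ)
    (hsθ : 1 ≤ s * θ ^ 2)
    (f : Fin n → Fin n → Fin n → ℝ) (hf0 : ∀ i j k, 0 ≤ f i j k) (hf1 : ∀ i j k, f i j k ≤ 1) :
    ∃ K : Fin s → Fin n, ∑ i, ∑ j, |(∑ l, f i j (K l)) / s - (∑ k, f i j k) / n|
      ≤ θ * (n : ℝ) ^ 2 := by
  obtain ⟨K, hK⟩ := exists_sample hn s hs f hf0 hf1
  have hn' : (0 : ℝ) < n := by exact_mod_cast hn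
  have hs' : (0 : ℝ) < s := by exact_mod_cast hs
  refine ⟨K, ?_⟩
  have h1 : ∀ d : ℝ, |d| ≤ d ^ 2 / (2 * θ) + θ / 2 := by
    intro d
    have : 0 ≤ (|d| - θ) ^ 2 := sq_nonneg _
    rw [← sq_abs d]
    rw [div_add_div _ _ (by positivity) (by norm_num), le_div_iff₀ (by positivity)]
    nlinarith
  calc ∑ i, ∑ j, |(∑ l, f i j (K l)) / s - (∑ k, f i j k) / n|
      ≤ ∑ i, ∑ j, (((∑ l, f i j (K l)) / s - (∑ k, f i j k) / n) ^ 2 / (2 * θ) + θ / 2) :=
        Finset.sum_le_sum fun i _ => Finset.sum_le_sum fun j _ => h1 _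
    _ = (∑ i, ∑ j, ((∑ l, f i j (K l)) / s - (∑ k, f i j k) / n) ^ 2) / (2 * θ)
        + (n : ℝ) ^ 2 * (θ / 2) := by
        simp only [Finset.sum_add_distrib, ← Finset.sum_div]
        simp only [Finset.sum_const, Finset.card_univ, Fintype.card_fin, nsmul_eq_mul]
        ring
    _ ≤ ((n : ℝ) ^ 2 / s) / (2 * θ) + (n : ℝ) ^ 2 * (θ / 2) := by
        gcongr
    _ ≤ θ * (n : ℝ) ^ 2 := by
        have h2 : (1 : ℝ) / s ≤ θ ^ 2 := by
          rw [div_le_iff₀ hs']; linarith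
        have h3 : ((n : ℝ) ^ 2 / s) / (2 * θ) ≤ (n : ℝ) ^ 2 * (θ / 2) := by
          have : ((n : ℝ) ^ 2 / s) / (2 * θ) = (n : ℝ) ^ 2 * ((1 / s) / (2 * θ)) := by
            field_simp
          rw [this]
          refine mul_le_mul_of_nonneg_left ?_ (by positivity)
          rw [div_le_iff₀ (by positivity)]
          nlinarith
        linarith

end Pool.Agent.U445.EvenTriple
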