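import Mathlib
import Pool.Agent.U445.EvenTriple1

set_option autoImplicit false
open Classical

namespace Pool.Agent.U445.EvenTriple

open Finset

/-- Summing over all graphs a product of weights depending on one edge each. -/
theorem sum_graph_prod_le {n : ℕ} (h : Fin n → Fin n → Prop → ℝ)
    (h0 : ∀ i j b, 0 ≤ h i j b) (C : ℝ) (hC : 1 ≤ C)
    (hsum : ∀ i j, h i j True + h i j False ≤ C) :
    ∑ G : SimpleGraph (Fin n), ∏ i, ∏ j, (if i < j then h i j (G.Adj i j) else 1)
      ≤ C ^ (n ^ 2) := by
  -- weights on functions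
  let F : (Fin n × Fin n → Bool) → ℝ := fun x =>
    ∏ e : Fin n × Fin n, (if e.1 < e.2 then h e.1 e.2 (x e = true) else if x e = true then 1 else 0)
  let m : SimpleGraph (Fin n) → (Fin n × Fin n → Bool) := fun G e =>
    if e.1 < e.2 then decide (G.Adj e.1 e.2) else true
  have hm : Function.Injective m := by
    intro G G' hGG
    ext i j
    have key : ∀ i j : Fin n, i < j → (G.Adj i j ↔ G'.Adj i j) := by
      intro i j hij
      have := congrFun hGG (i, j)
      simpa [m, hij] using this
    rcases lt_trichotomy i j with hij | hij | hij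
    · exact key i j hij
    · subst hij; simp
    · rw [G.adj_comm, G'.adj_comm]; exact key j i hij
  have hF0 : ∀ x, 0 ≤ F x := by
    intro x
    refine Finset.prod_nonneg fun e _ => ?_
    split_ifs
    · exact h0 _ _ _
    · exact zero_le_one
    · exact le_refl _
  have hFm : ∀ G : SimpleGraph (Fin n),
      ∏ i, ∏ j, (if i < j then h i j (G.Adj i j) else 1) = F (m G) := by
    intro G
    simp only [F]
    rw [Fintype.prod_prod_type]
    refine Finset.prod_congr rfl fun i _ => Finset.prod_congr rfl fun j _ => ?_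
    by_cases hij : i < j
    · simp [m, hij]
    · simp [m, hij]
  calc ∑ G : SimpleGraph (Fin n), ∏ i, ∏ j, (if i < j then h i j (G.Adj i j) else 1)
      = ∑ G : SimpleGraph (Fin n), F (m G) := Finset.sum_congr rfl fun G _ => hFm G
    _ = ∑ x ∈ Finset.univ.image m, F x := by
        rw [Finset.sum_image]
        intro a _ b _ hab
        exact hm hab
    _ ≤ ∑ x, F x := Finset.sum_le_univ_sum_of_nonneg hF0
    _ = ∏ e : Fin n × Fin n, ∑ b : Bool,
          (if e.1 < e.2 then h e.1 e.2 (b = true) else if b = true then 1 else 0) := by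
        rw [Finset.prod_univ_sum]
        rw [Fintype.piFinset_univ]
    _ ≤ ∏ e : Fin n × Fin n, C := by
        refine Finset.prod_le_prod ?_ ?_
        · intro e _
          refine Finset.sum_nonneg fun b _ => ?_
          split_ifs
          · exact h0 _ _ _
          · exact zero_le_one
          · exact le_refl _
        · intro e _
          rw [Fintype.sum_bool]
          by_cases he : e.1 < e.2
          · simpa [he] using hsum e.1 e.2
          · simpa [he] using hC
    _ = C ^ (n ^ 2) := by
        simp [pow_two]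

/-- the empirical disagreement. -/
noncomputable def dis {n s : ℕ} (R : Fin n → Fin s → Bool) (i j : Fin n) : ℝ :=
  (∑ l, if R i l = R j l then (0 : ℝ) else 1) / s

theorem dis_nonneg {n s : ℕ} (R : Fin n → Fin s → Bool) (i j : Fin n) : 0 ≤ dis R i j := by
  unfold dis
  refine div_nonneg (Finset.sum_nonneg fun l _ => ?_) (Nat.cast_nonneg _)
  split_ifs <;> norm_num

theorem dis_le_one {n s : ℕ} (R : Fin n → Fin s → Bool) (i j : Fin n) : dis R i j ≤ 1 := by
  unfold dis
  rcases Nat.eq_zero_or_pos s with hs | hs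
  · subst hs; simp
  · have hs' : (0 : ℝ) < s := by exact_mod_cast hs
    rw [div_le_one hs']
    calc (∑ l, if R i l = R j l then (0 : ℝ) else 1) ≤ ∑ l : Fin s, (1 : ℝ) := by
          refine Finset.sum_le_sum fun l _ => ?_
          split_ifs <;> norm_num
      _ = s := by simp

/-- weight of an edge slot given the type. -/
noncomputable def wt {n s : ℕ} (η : ℝ) (R : Fin n → Fin s → Bool) (i j : Fin n) (p : Prop) : ℝ :=
  (if p then dis R i j else 1 - dis R i j) + η

theorem wt_nonneg {n s : ℕ} (η : ℝ) (hη : 0 ≤ η) (R : Fin n → Fin s → Bool) (i j : Fin n)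
    (p : Prop) : 0 ≤ wt η R i j p := by
  unfold wt
  have h0 := dis_nonneg R i j
  have h1 := dis_le_one R i j
  split_ifs <;> linarith

/-- the fraction in the problem statement. -/
noncomputable def phi {n : ℕ} (G : SimpleGraph (Fin n)) (i j : Fin n) : ℝ :=
  (((Finset.univ.filter (fun k : Fin n => k ≠ i ∧ k ≠ j ∧
                Even ((if G.Adj i j then 1 else 0) + (if G.Adj i k then 1 else 0)
                  + (if G.Adj j k then 1 else 0) : ℕ))).card : ℝ) / ((n : ℝ) - 2))

noncomputable def fdis {n : ℕ} (G : SimpleGraph (Fin n)) (i j k : Fin n) : ℝ :=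
  if (G.Adj i k ↔ G.Adj j k) then 0 else 1

theorem fdis_sum {n : ℕ} (G : SimpleGraph (Fin n)) (i j : Fin n) :
    ∑ k, fdis G i j k = ((Finset.univ.filter (fun k : Fin n => ¬ (G.Adj i k ↔ G.Adj j k))).card : ℝ) := by
  unfold fdis
  rw [Finset.card_filter]
  push_cast
  refine Finset.sum_congr rfl fun k _ => ?_
  by_cases h : (G.Adj i k ↔ G.Adj j k) <;> simp [h]

theorem fdis_sum' {n : ℕ} (G : SimpleGraph (Fin n)) (i j : Fin n) :
    (n : ℝ) - ∑ k, fdis G i j k
      = ((Finset.univ.filter (fun k : Fin n => (G.Adj i k ↔ G.Adj j k))).card : ℝ) := by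
  rw [fdis_sum]
  have := Finset.card_filter_add_card_filter_not (s := (Finset.univ : Finset (Fin n)))
    (p := fun k : Fin n => (G.Adj i k ↔ G.Adj j k))
  rw [Finset.card_univ, Fintype.card_fin] at this
  have h2 : ((Finset.univ.filter (fun k : Fin n => (G.Adj i k ↔ G.Adj j k))).card : ℝ)
    + ((Finset.univ.filter (fun k : Fin n => ¬ (G.Adj i k ↔ G.Adj j k))).card : ℝ) = n := by
    exact_mod_cast this
  linarith

theorem phi_le {n : ℕ} (hn : 4 ≤ n) (G : SimpleGraph (Fin n)) (i j : Fin n) :
    phi G i j ≤ ((n : ℝ) / ((n : ℝ) - 2)) *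
      (if G.Adj i j then (∑ k, fdis G i j k) / n else 1 - (∑ k, fdis G i j k) / n) := by
  have hn' : (4 : ℝ) ≤ n := by exact_mod_cast hn
  have hn2 : (0 : ℝ) < (n : ℝ) - 2 := by linarith
  have hn0 : (0 : ℝ) < (n : ℝ) := by linarith
  unfold phi
  by_cases hij : G.Adj i j
  · have e1 : ((n : ℝ) / ((n : ℝ) - 2)) *
        (if G.Adj i j then (∑ k, fdis G i j k) / n else 1 - (∑ k, fdis G i j k) / n)
        = (∑ k, fdis G i j k) / ((n : ℝ) - 2) := by
      rw [if_pos hij]; field_simp
    rw [e1, fdis_sum]
    refine div_le_div_of_nonneg_right ?_ hn2.le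
    have : (Finset.univ.filter (fun k : Fin n => k ≠ i ∧ k ≠ j ∧
                Even ((if G.Adj i j then 1 else 0) + (if G.Adj i k then 1 else 0)
                  + (if G.Adj j k then 1 else 0) : ℕ))) ⊆
        Finset.univ.filter (fun k : Fin n => ¬ (G.Adj i k ↔ G.Adj j k)) := by
      intro k hk
      simp only [Finset.mem_filter, Finset.mem_univ, true_and] at hk ⊢
      obtain ⟨_, _, hev⟩ := hk
      rw [if_pos hij] at hev
      by_cases h1 : G.Adj i k <;> by_cases h2 : G.Adj j k
      · rw [if_pos h1, if_pos h2] at hev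
        exact absurd hev (by decide)
      · simp [h1, h2]
      · simp [h1, h2]
      · rw [if_neg h1, if_neg h2] at hev
        exact absurd hev (by decide)
    exact_mod_cast Finset.card_le_card this
  · have e1 : ((n : ℝ) / ((n : ℝ) - 2)) *
        (if G.Adj i j then (∑ k, fdis G i j k) / n else 1 - (∑ k, fdis G i j k) / n)
        = ((n : ℝ) - ∑ k, fdis G i j k) / ((n : ℝ) - 2) := by
      rw [if_neg hij]; field_simp
    rw [e1, fdis_sum']
    refine div_le_div_of_nonneg_right ?_ hn2.le
    have : (Finset.univ.filter (fun k : Fin n => k ≠ i ∧ k ≠ j ∧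
                Even ((if G.Adj i j then 1 else 0) + (if G.Adj i k then 1 else 0)
                  + (if G.Adj j k then 1 else 0) : ℕ))) ⊆
        Finset.univ.filter (fun k : Fin n => (G.Adj i k ↔ G.Adj j k)) := by
      intro k hk
      simp only [Finset.mem_filter, Finset.mem_univ, true_and] at hk ⊢
      obtain ⟨_, _, hev⟩ := hk
      rw [if_neg hij] at hev
      by_cases h1 : G.Adj i k <;> by_cases h2 : G.Adj j k
      · simp [h1, h2]
      · rw [if_pos h1, if_neg h2] at hev
        exact absurd hev (by decide)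
      · rw [if_neg h1, if_pos h2] at hev
        exact absurd hev (by decide)
      · simp [h1, h2]
    exact_mod_cast Finset.card_le_card this

theorem phi_nonneg {n : ℕ} (hn : 4 ≤ n) (G : SimpleGraph (Fin n)) (i j : Fin n) :
    0 ≤ phi G i j := by
  have hn' : (4 : ℝ) ≤ n := by exact_mod_cast hn
  unfold phi
  exact div_nonneg (Nat.cast_nonneg _) (by linarith)

/-- one factor. -/
theorem factor_le {n s : ℕ} (hn : 4 ≤ n) (η : ℝ) (hη : 0 < η)
    (G : SimpleGraph (Fin n)) (R : Fin n → Fin s → Bool) (i j : Fin n) :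
    phi G i j ≤ ((n : ℝ) / ((n : ℝ) - 2)) *
      Real.exp (|dis R i j - (∑ k, fdis G i j k) / n| / η) * wt η R i j (G.Adj i j) := by
  have hn' : (4 : ℝ) ≤ n := by exact_mod_cast hn
  have hn2 : (0 : ℝ) < (n : ℝ) - 2 := by linarith
  refine (phi_le hn G i j).trans ?_
  rw [mul_assoc]
  refine mul_le_mul_of_nonneg_left ?_ (by positivity)
  set d := |dis R i j - (∑ k, fdis G i j k) / n| with hd
  have hd0 : 0 ≤ d := abs_nonneg _
  have hexp : 1 + d / η ≤ Real.exp (d / η) := by
    have := Real.add_one_le_exp (d / η); linarith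
  have hw := wt_nonneg η hη.le R i j (G.Adj i j)
  have h0 := dis_nonneg R i j
  have h1 := dis_le_one R i j
  have key : (if G.Adj i j then (∑ k, fdis G i j k) / n else 1 - (∑ k, fdis G i j k) / n)
      ≤ (1 + d / η) * wt η R i j (G.Adj i j) := by
    have hdd : d / η * η = d := by field_simp
    have hdη : 0 ≤ d / η := by positivity
    unfold wt
    split_ifs with hij
    · have : (∑ k, fdis G i j k) / n ≤ dis R i j + d := by
        have := neg_abs_le (dis R i j - (∑ k, fdis G i j k) / n)
        rw [← hd] at this; linarith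
      nlinarith [mul_nonneg hdη h0]
    · have : 1 - (∑ k, fdis G i j k) / n ≤ 1 - dis R i j + d := by
        have := le_abs_self (dis R i j - (∑ k, fdis G i j k) / n)
        rw [← hd] at this; linarith
      nlinarith [mul_nonneg hdη (sub_nonneg.2 h1)]
  exact key.trans (mul_le_mul_of_nonneg_right hexp hw)

end Pool.Agent.U445.EvenTriple
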