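import Mathlib

/-!
Subset sums: basic covering lemmas (for the bounded abundancy of weird numbers).
-/

set_option autoImplicit false
set_option linter.unusedSectionVars false
set_option linter.style.haveILetI false

namespace Pool.Agent.U445.Weird

open Finset

variable {ι : Type*} [DecidableEq ι]

/-- the integers `u, u+d, …, u+L*d` are all subset sums of the weights `w` over `F` -/
def Cov (w : ι → ℕ) (F : Finset ι) (d u L : ℕ) : Prop :=
  ∀ j ≤ L, ∃ s ⊆ F, ∑ i ∈ s, w i = u + j * d

lemma Cov.mono {w : ι → ℕ} {F F' : Finset ι} {d u L : ℕ} (h : Cov w F d u L) (hF : F ⊆ F') :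
    Cov w F' d u L := by
  intro j hj
  obtain ⟨s, hs, hs'⟩ := h j hj
  exact ⟨s, hs.trans hF, hs'⟩

lemma Cov.shorten {w : ι → ℕ} {F : Finset ι} {d u L L' : ℕ} (h : Cov w F d u L) (hL : L' ≤ L) :
    Cov w F d u L' := fun j hj => h j (hj.trans hL)

lemma Cov.zero (w : ι → ℕ) (F : Finset ι) (d : ℕ) : Cov w F d 0 0 := by
  intro j hj
  refine ⟨∅, empty_subset _, ?_⟩
  obtain rfl : j = 0 := by omega
  simp

lemma Cov.u_le {w : ι → ℕ} {F : Finset ι} {d u L : ℕ} (h : Cov w F d u L) :
    u ≤ ∑ i ∈ F, w i := by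
  obtain ⟨s, hs, hs'⟩ := h 0 (Nat.zero_le _)
  have : ∑ i ∈ s, w i ≤ ∑ i ∈ F, w i := sum_le_sum_of_subset hs
  omega

/-- extend an arithmetic progression by a pair of elements whose weights differ by `d*e` -/
lemma Cov.pair {w : ι → ℕ} {F : Finset ι} {d u L : ℕ} (h : Cov w F d u L) {x y : ι}
    (hx : x ∉ F) (hy : y ∉ F) {e : ℕ} (he : w y = w x + e * d) (heL : e ≤ L + 1) :
    Cov w (insert x (insert y F)) d (u + w x) (L + e) := by
  intro j hj
  by_cases hjL : j ≤ L
  · obtain ⟨s, hs, hs'⟩ := h j hjL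
    refine ⟨insert x s, insert_subset_insert _ (hs.trans (subset_insert _ _)), ?_⟩
    rw [sum_insert (fun hc => hx (hs hc)), hs']
    ring
  · obtain ⟨s, hs, hs'⟩ := h (j - e) (by omega)
    refine ⟨insert y s, ?_, ?_⟩
    · exact (insert_subset_insert _ hs).trans (subset_insert _ _)
    rw [sum_insert (fun hc => hy (hs hc)), hs', he]
    have : j = (j - e) + e := by omega
    conv_rhs => rw [this]
    ring

/-- extend an interval by one element -/
lemma Cov.extend1 {w : ι → ℕ} {F : Finset ι} {u L : ℕ} (h : Cov w F 1 u L) {x : ι}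
    (hx : x ∉ F) (hw : w x ≤ L + 1) :
    Cov w (insert x F) 1 u (L + w x) := by
  intro j hj
  by_cases hjL : j ≤ L
  · obtain ⟨s, hs, hs'⟩ := h j hjL
    exact ⟨s, hs.trans (subset_insert _ _), hs'⟩
  · obtain ⟨s, hs, hs'⟩ := h (j - w x) (by omega)
    refine ⟨insert x s, insert_subset_insert _ hs, ?_⟩
    rw [sum_insert (fun hc => hx (hs hc)), hs']
    omega

lemma Cov.extend {w : ι → ℕ} {F G : Finset ι} {u L : ℕ} (h : Cov w F 1 u L)
    (hd : Disjoint F G) (hw : ∀ g ∈ G, w g ≤ L + 1) :
    Cov w (F ∪ G) 1 u (L + ∑ g ∈ G, w g) := by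
  induction G using Finset.induction_on with
  | empty => simpa using h
  | @insert a s ha ih =>
    have hd' : Disjoint F s := hd.mono_right (subset_insert _ _)
    have haF : a ∉ F := fun hc => (Finset.disjoint_left.mp hd) hc (mem_insert_self _ _)
    have h1 := ih hd' (fun g hg => hw g (mem_insert_of_mem hg))
    have h2 := h1.extend1 (x := a) (by simp [haF, ha])
      ((hw a (mem_insert_self _ _)).trans (by omega))
    rw [union_insert, sum_insert ha]
    convert h2 using 1
    omega

/-- add a family whose subset sums contain all `q*(u'+t)`, `t ≤ L'` -/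
lemma Cov.addMul {w : ι → ℕ} {F H : Finset ι} {u L q u' L' : ℕ} (h : Cov w F 1 u L)
    (hd : Disjoint F H)
    (hH : ∀ t ≤ L', ∃ s ⊆ H, ∑ i ∈ s, w i = q * (u' + t)) (hq : q ≤ L + 1) :
    Cov w (F ∪ H) 1 (u + q * u') (L + q * L') := by
  intro j hj
  have key : ∃ t ≤ L', ∃ r ≤ L, j = q * t + r := by
    by_cases hq0 : q = 0
    · subst hq0
      exact ⟨0, Nat.zero_le _, j, by simpa using hj, by simp⟩
    by_cases hc : j / q ≤ L'
    · refine ⟨j / q, hc, j % q, ?_, (Nat.div_add_mod j q).symm⟩
      have := Nat.mod_lt j (Nat.pos_of_ne_zero hq0)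
      omega
    · refine ⟨L', le_rfl, j - q * L', by omega, ?_⟩
      have h1 : L' ≤ j / q := by omega
      have h2 : q * L' ≤ j := by
        calc q * L' ≤ q * (j / q) := Nat.mul_le_mul_left _ h1
          _ ≤ j := Nat.mul_div_le j q
      omega
  obtain ⟨t, ht, r, hr, rfl⟩ := key
  obtain ⟨s, hs, hs'⟩ := h r hr
  obtain ⟨s', hss, hss'⟩ := hH t ht
  refine ⟨s ∪ s', union_subset_union hs hss, ?_⟩
  rw [sum_union (Finset.disjoint_of_subset_left hs (Finset.disjoint_of_subset_right hss hd)),
    hs', hss']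
  ring

/-- transfer along an injective map scaling the weights -/
lemma Cov.transfer {κ : Type*} [DecidableEq κ] {w : ι → ℕ} {w' : κ → ℕ} {F : Finset ι}
    {u L c : ℕ} (h : Cov w F 1 u L) (f : ι → κ) (hf : Set.InjOn f F)
    (hw : ∀ i ∈ F, w' (f i) = c * w i) :
    ∀ t ≤ L, ∃ s ⊆ F.image f, ∑ i ∈ s, w' i = c * (u + t) := by
  intro t ht
  obtain ⟨s, hs, hs'⟩ := h t ht
  refine ⟨s.image f, image_subset_image hs, ?_⟩
  rw [sum_image (fun a ha b hb hab => hf (hs ha) (hs hb) hab)]
  rw [sum_congr rfl (fun i hi => hw i (hs hi)), ← mul_sum, hs']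
  ring

/-- subset sums of at least `d-1` units cover all residues modulo `d` -/
lemma residues_card (d : ℕ) [NeZero d] (w : ι → ℕ) (B : Finset ι)
    (hB : ∀ b ∈ B, Nat.Coprime (w b) d) :
    min d (B.card + 1) ≤ (B.powerset.image (fun s => ((∑ i ∈ s, w i : ℕ) : ZMod d))).card := by
  induction B using Finset.induction_on with
  | empty =>
    simp
  | @insert b B hb ih =>
    have ih' := ih (fun x hx => hB x (mem_insert_of_mem hx))
    set R := B.powerset.image (fun s => ((∑ i ∈ s, w i : ℕ) : ZMod d)) with hR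
    set R' := (insert b B).powerset.image (fun s => ((∑ i ∈ s, w i : ℕ) : ZMod d)) with hR'
    have hsub : R ⊆ R' := by
      apply image_subset_image
      exact powerset_mono.mpr (subset_insert _ _)
    have hadd : ∀ r ∈ R, r + (w b : ZMod d) ∈ R' := by
      intro r hr
      rw [hR, mem_image] at hr
      obtain ⟨s, hs, rfl⟩ := hr
      rw [mem_powerset] at hs
      rw [hR', mem_image]
      refine ⟨insert b s, ?_, ?_⟩
      · rw [mem_powerset]; exact insert_subset_insert _ hs
      · rw [sum_insert (fun hc => hb (hs hc))]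
        push_cast
        ring
    by_cases hex : ∃ r ∈ R, r + (w b : ZMod d) ∉ R
    · obtain ⟨r, hr, hr'⟩ := hex
      have hlt : R.card < R'.card := by
        apply card_lt_card
        rw [ssubset_iff_of_subset hsub]
        exact ⟨_, hadd r hr, hr'⟩
      rw [card_insert_of_notMem hb]
      have : min d (B.card + 1 + 1) ≤ min d (B.card + 1) + 1 := by omega
      omega
    · push Not at hex
      -- R is everything
      have hunit : IsUnit (w b : ZMod d) := by
        rw [ZMod.isUnit_iff_coprime]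
        exact hB b (mem_insert_self _ _)
      have h0 : (0 : ZMod d) ∈ R := by
        rw [hR, mem_image]
        exact ⟨∅, by simp, by simp⟩
      have hmul : ∀ k : ℕ, ((k : ZMod d) * (w b : ZMod d)) ∈ R := by
        intro k
        induction k with
        | zero => simpa using h0
        | succ k ihk =>
          have := hex _ ihk
          convert this using 1
          push_cast
          ring
      have huniv : ∀ x : ZMod d, x ∈ R := by
        intro x
        obtain ⟨v, hv⟩ := hunit
        have := hmul ((x * (↑v⁻¹ : ZMod d)).val)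
        rw [ZMod.natCast_zmod_val] at this
        rw [← hv] at this
        simpa [mul_assoc] using this
      have : R = univ := by
        ext x; simp [huniv x]
      have hc : R.card = d := by
        rw [this, card_univ, ZMod.card]
      have hle := card_le_card hsub
      omega

lemma residues (d : ℕ) (hd : 0 < d) (w : ι → ℕ) (B : Finset ι)
    (hB : ∀ b ∈ B, Nat.Coprime (w b) d) (hcard : d ≤ B.card + 1) (ρ : ℕ) :
    ∃ s ⊆ B, ∑ i ∈ s, w i ≡ ρ [MOD d] := by
  haveI : NeZero d := ⟨by omega⟩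
  have h := residues_card d w B hB
  rw [min_eq_left hcard] at h
  have huniv : (B.powerset.image (fun s => ((∑ i ∈ s, w i : ℕ) : ZMod d))) = univ := by
    apply eq_univ_of_card
    rw [ZMod.card]
    apply le_antisymm _ h
    have := card_le_univ (B.powerset.image (fun s => ((∑ i ∈ s, w i : ℕ) : ZMod d)))
    rwa [ZMod.card] at this
  have hm : ((ρ : ℕ) : ZMod d) ∈ (B.powerset.image (fun s => ((∑ i ∈ s, w i : ℕ) : ZMod d))) := by
    rw [huniv]; exact mem_univ _
  rw [mem_image] at hm
  obtain ⟨s, hs, hs'⟩ := hm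
  rw [mem_powerset] at hs
  exact ⟨s, hs, (ZMod.natCast_eq_natCast_iff _ _ _).mp hs'⟩

/-- fill the residues modulo `d` -/
lemma Cov.fill {w : ι → ℕ} {F B : Finset ι} {d u L : ℕ} (hd : 0 < d) (h : Cov w F d u L)
    (hdis : Disjoint F B) (hB : ∀ b ∈ B, Nat.Coprime (w b) d) (hcard : d ≤ B.card + 1)
    (hL : ∑ b ∈ B, w b ≤ L * d) :
    Cov w (F ∪ B) 1 (u + ∑ b ∈ B, w b) (L * d - ∑ b ∈ B, w b) := by
  intro t ht
  obtain ⟨s, hs, hs'⟩ := residues d hd w B hB hcard ((∑ b ∈ B, w b) + t)
  have hle : ∑ i ∈ s, w i ≤ ∑ b ∈ B, w b := sum_le_sum_of_subset hs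
  have hdvd : d ∣ ((∑ b ∈ B, w b) + t) - ∑ i ∈ s, w i :=
    (Nat.modEq_iff_dvd' (by omega)).mp hs'
  obtain ⟨j, hj⟩ := hdvd
  have hjL : j ≤ L := by
    have : d * j ≤ d * L := by
      rw [← hj, mul_comm d L]; omega
    exact Nat.le_of_mul_le_mul_left this hd
  obtain ⟨s', hs1, hs2⟩ := h j hjL
  refine ⟨s' ∪ s, union_subset_union hs1 hs, ?_⟩
  rw [sum_union (Finset.disjoint_of_subset_left hs1 (Finset.disjoint_of_subset_right hs hdis)),
    hs2]
  have : j * d = ((∑ b ∈ B, w b) + t) - ∑ i ∈ s, w i := by rw [hj]; ring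
  rw [this]
  omega

end Pool.Agent.U445.Weird
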