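import Mathlib
import Pool.Agent.U445.WeirdA

/-!
Subset sums of a dense set of primes of `[N, 2N)` contain a long interval.
-/

set_option autoImplicit false

namespace Pool.Agent.U445.Weird

open Finset

/-- repeated small differences -/
lemma small_diff (A : Finset ℕ) (N W : ℕ) (hW : 0 < W) (hA : ∀ a ∈ A, N ≤ a ∧ a < 2 * N) :
    ∀ t, 2 * t + N / W + 2 ≤ A.card →
      ∃ U ⊆ A, U.card ≤ 2 * t ∧ ∃ c : ℕ → ℕ, ∑ d ∈ Icc 1 W, c d = t ∧
        ∀ d ∈ Icc 1 W, ∃ u, Cov (fun x : ℕ => x) U d u (c d) := by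
  intro t
  induction t with
  | zero =>
    intro _
    refine ⟨∅, empty_subset _, by simp, fun _ => 0, by simp, ?_⟩
    intro d _
    exact ⟨0, Cov.zero _ _ _⟩
  | succ t ih =>
    intro ht
    obtain ⟨U, hUA, hUc, c, hc, hcov⟩ := ih (by omega)
    have hcard : N / W + 4 ≤ (A \ U).card := by
      have := le_card_sdiff U A
      omega
    have hmaps : ∀ x ∈ A \ U, x / W ∈ Icc (N / W) (2 * (N / W) + 1) := by
      intro x hx
      have hx' := hA x (mem_sdiff.mp hx).1
      rw [mem_Icc]
      constructor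
      · exact Nat.div_le_div_right hx'.1
      · have h1 : x < (2 * (N / W) + 2) * W := by
          have h2 := Nat.div_add_mod N W
          have h3 := Nat.mod_lt N hW
          nlinarith
        have := (Nat.div_lt_iff_lt_mul hW).mpr h1
        omega
    have hlt : (Icc (N / W) (2 * (N / W) + 1)).card < (A \ U).card := by
      rw [Nat.card_Icc]; omega
    obtain ⟨x0, hx0, y0, hy0, hne0, heq0⟩ := exists_ne_map_eq_of_card_lt_of_maps_to hlt hmaps
    -- wlog x < y
    obtain ⟨x, hx, y, hy, hxy, heq⟩ : ∃ x ∈ A \ U, ∃ y ∈ A \ U, x < y ∧ x / W = y / W := by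
      rcases lt_or_gt_of_ne hne0 with h | h
      · exact ⟨x0, hx0, y0, hy0, h, heq0⟩
      · exact ⟨y0, hy0, x0, hx0, h, heq0.symm⟩
    rw [mem_sdiff] at hx hy
    set d0 := y - x with hd0
    have hd0W : d0 ∈ Icc 1 W := by
      rw [mem_Icc]
      have h1 := Nat.div_add_mod x W
      have h2 := Nat.div_add_mod y W
      have h3 := Nat.mod_lt x hW
      have h4 := Nat.mod_lt y hW
      rw [heq] at h1
      omega
    refine ⟨insert x (insert y U), ?_, ?_, fun d => c d + if d = d0 then 1 else 0, ?_, ?_⟩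
    · intro z hz
      rw [mem_insert, mem_insert] at hz
      rcases hz with rfl | rfl | hz
      · exact hx.1
      · exact hy.1
      · exact hUA hz
    · have h1 := card_insert_le x (insert y U)
      have h2 := card_insert_le y U
      omega
    · rw [sum_add_distrib, hc, sum_ite_eq' , if_pos hd0W]
    · intro d hd
      obtain ⟨u, hu⟩ := hcov d hd
      by_cases hdd : d = d0
      · refine ⟨u + x, ?_⟩
        have := hu.pair (x := x) (y := y) hx.2 hy.2 (e := 1)
          (by rw [hdd]; simp only [one_mul]; omega) (by omega)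
        simpa [hdd] using this
      · refine ⟨u, ?_⟩
        have h2 : Cov (fun x : ℕ => x) (insert x (insert y U)) d u (c d) :=
          hu.mono ((subset_insert _ _).trans (subset_insert _ _))
        simpa [hdd] using h2

lemma small_diff' (A : Finset ℕ) (N W t : ℕ) (hW : 0 < W)
    (hA : ∀ a ∈ A, N ≤ a ∧ a < 2 * N) (ht : 2 * t + N / W + 2 ≤ A.card) :
    ∃ d, 1 ≤ d ∧ d ≤ W ∧ ∃ r u, t ≤ W * r ∧ Cov (fun x : ℕ => x) A d u r := by
  obtain ⟨U, hUA, -, c, hc, hcov⟩ := small_diff A N W hW hA t ht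
  by_contra hcon
  push Not at hcon
  have h1 : ∀ d ∈ Icc 1 W, W * c d < t := by
    intro d hd
    obtain ⟨u, hu⟩ := hcov d hd
    rw [mem_Icc] at hd
    by_contra hle
    push Not at hle
    exact hcon d hd.1 hd.2 (c d) u hle (hu.mono hUA)
  have h2 : ∑ d ∈ Icc 1 W, W * c d < ∑ d ∈ Icc 1 W, t := by
    apply sum_lt_sum_of_nonempty
    · exact ⟨1, by rw [mem_Icc]; omega⟩
    · exact h1
  rw [← mul_sum, hc, sum_const, Nat.card_Icc, smul_eq_mul] at h2
  have : W + 1 - 1 = W := by omega
  rw [this] at h2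
  exact lt_irrefl _ h2

/-- medium differences inside a residue class and a short interval -/
lemma med_diff (d L0 h : ℕ) (hd : 0 < d) :
    ∀ (t : ℕ) (F S : Finset ℕ) (u L : ℕ), Disjoint F S → L0 ≤ L →
      (∀ x ∈ S, ∀ y ∈ S, x ≡ y [MOD d]) → (∀ x ∈ S, ∀ y ∈ S, y ≤ x + L0 * d) →
      h + 2 * t ≤ S.card → Cov (fun x : ℕ => x) F d u L →
      ∃ u', Cov (fun x : ℕ => x) (F ∪ S) d u' (L + t * h) := by
  intro t
  induction t with
  | zero =>
    intro F S u L _ _ _ _ _ hF
    refine ⟨u, ?_⟩
    simpa using hF.mono subset_union_left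
  | succ t ih =>
    intro F S u L hdis hL hmod hle hcard hF
    have hne : S.Nonempty := by
      rw [← card_pos]; omega
    set x := S.min' hne with hx
    set y := S.max' hne with hy
    have hxS : x ∈ S := min'_mem _ _
    have hyS : y ∈ S := max'_mem _ _
    have hxy : x ≤ y := min'_le _ _ hyS
    have hdvd : d ∣ y - x := (Nat.modEq_iff_dvd' hxy).mp (hmod x hxS y hyS)
    obtain ⟨e, he⟩ := hdvd
    have hye : y = x + e * d := by
      have : e * d = y - x := by rw [he]; ring
      omega
    have hSsub : S ⊆ (range (e + 1)).image (fun j => x + j * d) := by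
      intro z hz
      have hz1 : x ≤ z := min'_le _ _ hz
      have hz2 : z ≤ y := le_max' _ _ hz
      obtain ⟨j, hj⟩ := (Nat.modEq_iff_dvd' hz1).mp (hmod x hxS z hz)
      rw [mem_image]
      refine ⟨j, ?_, ?_⟩
      · rw [mem_range]
        have h1 : d * j ≤ d * e := by rw [← hj, ← he]; omega
        have := Nat.le_of_mul_le_mul_left h1 hd
        omega
      · show x + j * d = z
        have : j * d = z - x := by rw [hj]; ring
        omega
    have hcard2 : S.card ≤ e + 1 := by
      calc S.card ≤ _ := card_le_card hSsub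
        _ ≤ (range (e + 1)).card := card_image_le
        _ = e + 1 := card_range _
    have hxney : x ≠ y := by
      intro hc
      have : e * d = 0 := by omega
      rcases Nat.mul_eq_zero.mp this with h0 | h0 <;> omega
    have heL0 : e ≤ L0 := by
      have h1 := hle x hxS y hyS
      rw [hye] at h1
      have h2 : e * d ≤ L0 * d := by omega
      exact Nat.le_of_mul_le_mul_right h2 hd
    have hxF : x ∉ F := fun hc => (Finset.disjoint_left.mp hdis) hc hxS
    have hyF : y ∉ F := fun hc => (Finset.disjoint_left.mp hdis) hc hyS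
    have hp := hF.pair (x := x) (y := y) hxF hyF (e := e) hye (by omega)
    set S' := (S.erase x).erase y with hS'
    have hcS' : S'.card + 2 = S.card := by
      rw [hS', card_erase_of_mem (by rw [mem_erase]; exact ⟨hxney.symm, hyS⟩),
        card_erase_of_mem hxS]
      omega
    have hS'S : S' ⊆ S := (erase_subset _ _).trans (erase_subset _ _)
    obtain ⟨u', hu'⟩ := ih (insert x (insert y F)) S' (u + x) (L + e) (by
        rw [Finset.disjoint_left]
        intro z hz hz'
        rw [hS', mem_erase, mem_erase] at hz'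
        rw [mem_insert, mem_insert] at hz
        rcases hz with rfl | rfl | hz
        · exact hz'.2.1 rfl
        · exact hz'.1 rfl
        · exact (Finset.disjoint_left.mp hdis) hz hz'.2.2) (by omega)
      (fun a ha b hb => hmod a (hS'S ha) b (hS'S hb))
      (fun a ha b hb => hle a (hS'S ha) b (hS'S hb)) (by omega) hp
    refine ⟨u', ?_⟩
    have h3 : insert x (insert y F) ∪ S' = F ∪ S := by
      ext z
      simp only [mem_union, mem_insert, hS', mem_erase]
      constructor
      · rintro ((rfl | rfl | h) | h)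
        · exact Or.inr hxS
        · exact Or.inr hyS
        · exact Or.inl h
        · exact Or.inr h.2.2
      · rintro (h | h)
        · exact Or.inl (Or.inr (Or.inr h))
        · by_cases h1 : z = x
          · exact Or.inl (Or.inl h1)
          · by_cases h2 : z = y
            · exact Or.inl (Or.inr (Or.inl h2))
            · exact Or.inr ⟨h2, h1, h⟩
    rw [h3] at hu'
    apply hu'.shorten
    have : h ≤ e := by omega
    nlinarith

/-- the seed: subset sums of many primes of `[N,2N)` contain a long interval -/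
lemma seed (N l s : ℕ) (hl : 1 ≤ l) (hbig : 200000 * l ^ 7 ≤ N) (hNs : N ≤ l * s)
    (A1 A2 A3 : Finset ℕ) (h12 : Disjoint A1 A2) (h123 : Disjoint (A1 ∪ A2) A3)
    (hc1 : A1.card = s) (hc2 : A2.card = s) (hc3 : A3.card = s)
    (hA : ∀ a ∈ (A1 ∪ A2) ∪ A3, a.Prime ∧ N ≤ a ∧ a < 2 * N) :
    ∃ u L, 16 * l * N ≤ L ∧ Cov (fun x : ℕ => x) ((A1 ∪ A2) ∪ A3) 1 u L := by
  have hl7 : l ^ 2 * l ^ 5 = l ^ 7 := by ring
  have hl1 : l * l ^ 6 = l ^ 7 := by ring
  have hlpos : 0 < l := hl
  have hs6 : 200000 * l ^ 6 ≤ s := by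
    by_contra hc
    push Not at hc
    have : l * s < l * (200000 * l ^ 6) := Nat.mul_lt_mul_of_pos_left hc hlpos
    nlinarith
  have hl26 : l ^ 2 ≤ l ^ 6 := Nat.pow_le_pow_right hlpos (by norm_num)
  have hs2 : 200000 * l ^ 2 ≤ s := le_trans (by omega) hs6
  have hl2pos : 1 ≤ l ^ 2 := Nat.one_le_pow _ _ hlpos
  have hsbig : 200000 ≤ s := by omega
  -- step 1
  have hNW : N / (4 * l) ≤ s / 4 := by
    rw [← Nat.div_div_eq_div_mul, Nat.div_div_eq_div_mul, Nat.mul_comm 4 l,
      ← Nat.div_div_eq_div_mul]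
    exact Nat.div_le_div_right (Nat.div_le_of_le_mul hNs)
  obtain ⟨d, hd1, hdW, r, u0, hr, hcov⟩ := small_diff' A1 N (4 * l) (s / 4) (by omega)
    (fun a ha => (hA a (by simp [ha])).2) (by rw [hc1]; omega)
  have hr0 : 0 < r := by
    rcases Nat.eq_zero_or_pos r with h0 | h0
    · subst h0
      omega
    · exact h0
  have hsr : s ≤ 20 * l * r := by
    have h1 : s ≤ 5 * (s / 4) := by omega
    calc s ≤ 5 * (s / 4) := h1
      _ ≤ 5 * (4 * l * r) := Nat.mul_le_mul_left _ hr
      _ = 20 * l * r := by ring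
  have hNr : N / r ≤ 20 * l ^ 2 := by
    apply Nat.div_le_of_le_mul
    calc N ≤ l * s := hNs
      _ ≤ l * (20 * l * r) := Nat.mul_le_mul_left _ hsr
      _ = r * (20 * l ^ 2) := by ring
  -- step 2 : popular cell
  set cell : ℕ → ℕ × ℕ := fun x => (x % d, x / (r * d)) with hcell
  have hrd : 0 < r * d := Nat.mul_pos hr0 hd1
  set T : Finset (ℕ × ℕ) := range d ×ˢ Icc (N / (r * d)) (2 * (N / (r * d)) + 1) with hT
  have hmaps : ∀ x ∈ A2, cell x ∈ T := by
    intro x hx
    have hx' := (hA x (by simp [hx])).2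
    rw [hT, mem_product, mem_range, mem_Icc]
    refine ⟨Nat.mod_lt _ hd1, Nat.div_le_div_right hx'.1, ?_⟩
    have h1 : x < (2 * (N / (r * d)) + 2) * (r * d) := by
      have h2 := Nat.div_add_mod N (r * d)
      have h3 := Nat.mod_lt N hrd
      nlinarith
    have := (Nat.div_lt_iff_lt_mul hrd).mpr h1
    show x / (r * d) ≤ _
    omega
  have hTcard : T.card ≤ 28 * l ^ 2 := by
    rw [hT, card_product, card_range, Nat.card_Icc]
    have h1 : 2 * (N / (r * d)) + 1 + 1 - N / (r * d) = N / (r * d) + 2 := by omega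
    rw [h1, ← Nat.div_div_eq_div_mul]
    have h2 : d * (N / r / d) ≤ N / r := Nat.mul_div_le _ _
    have h3 : d * 2 ≤ 8 * l := by omega
    have h4 : l ≤ l ^ 2 := by nlinarith
    calc d * (N / r / d + 2) = d * (N / r / d) + d * 2 := by ring
      _ ≤ 20 * l ^ 2 + 8 * l := by omega
      _ ≤ 28 * l ^ 2 := by omega
  have hTne : T.Nonempty := by
    have hA2 : A2.Nonempty := by rw [← card_pos]; omega
    obtain ⟨a, ha⟩ := hA2
    exact ⟨_, hmaps a ha⟩
  set n := s / (28 * l ^ 2) with hn
  have hmul : T.card * n ≤ A2.card := by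
    rw [hc2]
    calc T.card * n ≤ (28 * l ^ 2) * n := Nat.mul_le_mul_right _ hTcard
      _ ≤ s := Nat.mul_div_le _ _
  obtain ⟨c, hcT, hcn⟩ := exists_le_card_fiber_of_mul_le_card_of_maps_to hmaps hTne hmul
  set S := A2.filter (fun x => cell x = c) with hS
  have hSA2 : S ⊆ A2 := filter_subset _ _
  set h := n / 3 with hh
  have hmod : ∀ x ∈ S, ∀ y ∈ S, x ≡ y [MOD d] := by
    intro x hx y hy
    rw [hS, mem_filter] at hx hy
    have : cell x = cell y := by rw [hx.2, hy.2]
    exact (Prod.mk.injEq _ _ _ _ ▸ this).1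
  have hle : ∀ x ∈ S, ∀ y ∈ S, y ≤ x + r * d := by
    intro x hx y hy
    rw [hS, mem_filter] at hx hy
    have : cell x = cell y := by rw [hx.2, hy.2]
    have h2 : x / (r * d) = y / (r * d) := (Prod.mk.injEq _ _ _ _ ▸ this).2
    have h3 := Nat.div_add_mod x (r * d)
    have h4 := Nat.div_add_mod y (r * d)
    have h5 := Nat.mod_lt y hrd
    rw [h2] at h3
    omega
  obtain ⟨u1, hu1⟩ := med_diff d r h hd1 h A1 S u0 r
    (Finset.disjoint_of_subset_right hSA2 h12) le_rfl hmod hle (by omega) hcov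
  -- lower bound for h
  have hh6 : 6 ≤ h := by
    rw [hh, hn, Nat.div_div_eq_div_mul]
    rw [Nat.le_div_iff_mul_le (by positivity)]
    nlinarith
  have hsh : s ≤ 100 * l ^ 2 * h := by
    have h1 : h = s / (84 * l ^ 2) := by
      rw [hh, hn, Nat.div_div_eq_div_mul]; congr 1; ring
    have h2 := Nat.div_add_mod s (84 * l ^ 2)
    have h3 := Nat.mod_lt s (show 0 < 84 * l ^ 2 by positivity)
    rw [← h1] at h2
    nlinarith
  have hNh : N ≤ 100 * l ^ 3 * h := by
    calc N ≤ l * s := hNs
      _ ≤ l * (100 * l ^ 2 * h) := Nat.mul_le_mul_left _ hsh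
      _ = 100 * l ^ 3 * h := by ring
  have hN0 : 0 < N := by
    have : 1 ≤ l ^ 7 := Nat.one_le_pow _ _ hlpos
    omega
  have hh2 : (16 * l + 2) * N ≤ h * h := by
    have h1 : N * N ≤ (100 * l ^ 3 * h) * (100 * l ^ 3 * h) := Nat.mul_le_mul hNh hNh
    have h2 : (100 * l ^ 3 * h) * (100 * l ^ 3 * h) = 10000 * l ^ 6 * (h * h) := by ring
    rw [h2] at h1
    have h3 : 10000 * l ^ 6 * ((16 * l + 2) * N) ≤ N * N := by
      have h4 : 10000 * l ^ 6 * (16 * l + 2) ≤ N := by
        have h5 : l ^ 6 ≤ l ^ 7 := Nat.pow_le_pow_right hlpos (by norm_num)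
        calc 10000 * l ^ 6 * (16 * l + 2) = 160000 * l ^ 7 + 20000 * l ^ 6 := by ring
          _ ≤ 200000 * l ^ 7 := by omega
          _ ≤ N := hbig
      calc 10000 * l ^ 6 * ((16 * l + 2) * N) = 10000 * l ^ 6 * (16 * l + 2) * N := by ring
        _ ≤ N * N := Nat.mul_le_mul_right _ h4
    have h6 : 10000 * l ^ 6 * ((16 * l + 2) * N) ≤ 10000 * l ^ 6 * (h * h) := h3.trans h1
    exact Nat.le_of_mul_le_mul_left h6 (by positivity)
  -- step 3 : fill the residues
  obtain ⟨B, hBA, hBc⟩ := exists_subset_card_eq (s := A3) (n := d - 1) (by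
    rw [hc3]
    have : 4 * l ≤ 4 * l ^ 2 := by nlinarith
    omega)
  have hsumB : ∑ b ∈ B, b ≤ (d - 1) * (2 * N) := by
    calc ∑ b ∈ B, b ≤ ∑ b ∈ B, 2 * N := by
          apply sum_le_sum
          intro b hb
          exact (hA b (by simp [hBA hb])).2.2.le
      _ = (d - 1) * (2 * N) := by rw [sum_const, hBc, smul_eq_mul]
  have hlong : h * h ≤ r + h * h := Nat.le_add_left _ _
  have hdN : d < N := by
    have : l ≤ l ^ 7 := Nat.le_self_pow (by norm_num) l
    omega
  have hkey : ∑ b ∈ B, b + 16 * l * N ≤ (r + h * h) * d := by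
    have h1 : (16 * l + 2) * N * d ≤ (h * h) * d := Nat.mul_le_mul_right _ hh2
    have h2 : (16 * l + 2) * N * d = 16 * l * N * d + 2 * N * d := by ring
    have h3 : 16 * l * N ≤ 16 * l * N * d := Nat.le_mul_of_pos_right _ hd1
    have h4 : (d - 1) * (2 * N) ≤ 2 * N * d := by
      calc (d - 1) * (2 * N) ≤ d * (2 * N) := Nat.mul_le_mul_right _ (by omega)
        _ = 2 * N * d := by ring
    have h5 : (h * h) * d ≤ (r + h * h) * d := Nat.mul_le_mul_right _ hlong
    omega
  have hfin := hu1.fill hd1 (B := B) (by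
      rw [Finset.disjoint_left]
      intro z hz hz'
      have hz3 := hBA hz'
      apply (Finset.disjoint_left.mp h123) _ hz3
      rw [mem_union] at hz ⊢
      rcases hz with hz | hz
      · exact Or.inl hz
      · exact Or.inr (hSA2 hz)) (by
      intro b hb
      have hb' := hA b (by simp [hBA hb])
      show Nat.Coprime b d
      rw [Nat.Prime.coprime_iff_not_dvd hb'.1]
      intro hdvd
      have := Nat.le_of_dvd hd1 hdvd
      omega) (by rw [hBc]; omega) (by omega)
  refine ⟨_, _, ?_, hfin.mono ?_⟩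
  · omega
  · intro z hz
    simp only [mem_union] at hz ⊢
    rcases hz with (hz | hz) | hz
    · exact Or.inl (Or.inl hz)
    · exact Or.inl (Or.inr (hSA2 hz))
    · exact Or.inr (hBA hz)

end Pool.Agent.U445.Weird
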