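import Mathlib
import Pool.Agent.U445.WeirdB

/-!
Subset sums of products of primes of `[N, 2N)`: climbing to nearly the full product.
-/

set_option autoImplicit false

namespace Pool.Agent.U445.Weird

open Finset

/-- the weight of a finite set of naturals is its product -/
def wt (T : Finset ℕ) : ℕ := ∏ p ∈ T, p

lemma wt_insert {T : Finset ℕ} {q : ℕ} (hq : q ∉ T) : wt (insert q T) = q * wt T := by
  unfold wt; rw [prod_insert hq]

lemma wt_union {S T : Finset ℕ} (h : Disjoint S T) : wt (S ∪ T) = wt S * wt T := by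
  unfold wt; rw [prod_union h]

lemma wt_sdiff {S T : Finset ℕ} (h : T ⊆ S) : wt (S \ T) * wt T = wt S := by
  unfold wt; exact prod_sdiff h

lemma wt_pos {T : Finset ℕ} (h : ∀ p ∈ T, 0 < p) : 0 < wt T := by
  unfold wt; exact prod_pos h

lemma le_wt {T : Finset ℕ} {N : ℕ} (h : ∀ p ∈ T, N ≤ p) : N ^ T.card ≤ wt T := by
  unfold wt; exact pow_card_le_prod _ _ _ h

lemma wt_le {T : Finset ℕ} {N : ℕ} (h : ∀ p ∈ T, p ≤ N) : wt T ≤ N ^ T.card := by
  unfold wt; exact prod_le_pow_card _ _ _ h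

/-- level two -/
lemma level2 (N u1 L1 : ℕ) (A : Finset ℕ) (hcov : Cov (fun x : ℕ => x) A 1 u1 L1)
    (hL1 : 2 * N ≤ L1) :
    ∀ Q : Finset ℕ, Disjoint A Q → (∀ q ∈ Q, q < 2 * N) →
      ∃ F : Finset (Finset ℕ), (∀ T ∈ F, T ⊆ A ∪ Q ∧ T.card ≤ 2) ∧
        Cov wt F 1 (u1 * (1 + ∑ q ∈ Q, q)) (L1 * (1 + ∑ q ∈ Q, q)) := by
  intro Q
  induction Q using Finset.induction_on with
  | empty =>
    intro _ _
    refine ⟨A.image (fun a => ({a} : Finset ℕ)), ?_, ?_⟩
    · intro T hT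
      rw [mem_image] at hT
      obtain ⟨a, ha, rfl⟩ := hT
      refine ⟨?_, by simp⟩
      simpa using ha
    · have h := hcov.transfer (w' := wt) (c := 1) (fun a => ({a} : Finset ℕ))
        (fun a _ b _ hab => by simpa using hab) (fun i _ => by simp [wt])
      intro j hj
      obtain ⟨s, hs, hs'⟩ := h j (by simpa using hj)
      refine ⟨s, hs, ?_⟩
      rw [hs']
      simp
  | @insert q Q hq ih =>
    intro hd hlt
    obtain ⟨F, hF, hFc⟩ := ih (hd.mono_right (subset_insert _ _))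
      (fun x hx => hlt x (mem_insert_of_mem hx))
    have hqA : q ∉ A := fun hc => (Finset.disjoint_left.mp hd) hc (mem_insert_self _ _)
    have h := hcov.transfer (w' := wt) (c := q) (fun a => ({q, a} : Finset ℕ))
        (by
          intro a ha b hb hab
          have h1 : a ∈ ({q, b} : Finset ℕ) := by
            rw [← show ({q, a} : Finset ℕ) = {q, b} from hab]; simp
          rw [mem_insert, mem_singleton] at h1
          rcases h1 with h1 | h1
          · exact absurd (h1 ▸ ha) hqA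
          · exact h1) (fun i hi => by
          have : q ≠ i := fun hc => hqA (hc ▸ hi)
          simp [wt, prod_pair this])
    have hdis : Disjoint F (A.image (fun a => ({q, a} : Finset ℕ))) := by
      rw [Finset.disjoint_left]
      intro T hT hT'
      rw [mem_image] at hT'
      obtain ⟨a, ha, rfl⟩ := hT'
      have h1 := (hF _ hT).1 (show q ∈ ({q, a} : Finset ℕ) by simp)
      rw [mem_union] at h1
      rcases h1 with h1 | h1
      · exact hqA h1
      · exact hq h1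
    have hq2 : q ≤ L1 * (1 + ∑ q ∈ Q, q) + 1 := by
      have h1 := hlt q (mem_insert_self _ _)
      have h2 : L1 ≤ L1 * (1 + ∑ q ∈ Q, q) := Nat.le_mul_of_pos_right _ (by omega)
      omega
    have h2 := hFc.addMul hdis h hq2
    refine ⟨F ∪ A.image (fun a => ({q, a} : Finset ℕ)), ?_, ?_⟩
    · intro T hT
      rw [mem_union] at hT
      rcases hT with hT | hT
      · refine ⟨(hF T hT).1.trans (union_subset_union_right (subset_insert _ _)), (hF T hT).2⟩
      · rw [mem_image] at hT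
        obtain ⟨a, ha, rfl⟩ := hT
        refine ⟨?_, card_le_two⟩
        intro x hx
        rw [mem_insert, mem_singleton] at hx
        rw [mem_union, mem_insert]
        rcases hx with rfl | rfl
        · exact Or.inr (Or.inl rfl)
        · exact Or.inl ha
    · convert h2 using 1
      · rw [sum_insert hq]; ring
      · rw [sum_insert hq]; ring

lemma pair_bounds {N : ℕ} {S Y : Finset ℕ} (hS : ∀ p ∈ S, N ≤ p ∧ p < 2 * N)
    (hY : Y ∈ powersetCard 2 S) : N ^ 2 ≤ wt Y ∧ wt Y ≤ 4 * N ^ 2 := by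
  rw [mem_powersetCard] at hY
  constructor
  · have := le_wt (T := Y) (N := N) (fun p hp => (hS p (hY.1 hp)).1)
    rwa [hY.2] at this
  · have := wt_le (T := Y) (N := 2 * N) (fun p hp => (hS p (hY.1 hp)).2.le)
    rw [hY.2] at this
    calc wt Y ≤ (2 * N) ^ 2 := this
      _ = 4 * N ^ 2 := by ring

/-- first climb -/
lemma climb1 (N u : ℕ) (Q0 : Finset ℕ) (hQ : ∀ p ∈ Q0, N ≤ p ∧ p < 2 * N) (hN : 0 < N)
    (J : ℕ) (hJ : 32 * N ≤ (Q0.card - J).choose 2)
    (F0 : Finset (Finset ℕ)) (L0 : ℕ) (hF0 : ∀ T ∈ F0, T ⊆ Q0 ∧ T.card ≤ 2)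
    (hcov0 : Cov wt F0 1 u L0) (hL0 : 32 * N ^ 3 ≤ L0) :
    ∀ X : Finset ℕ, X ⊆ Q0 → X.card ≤ J →
      ∃ F : Finset (Finset ℕ), (∀ T ∈ F, T ⊆ Q0 ∧ T.card ≤ X.card + 2) ∧
        ∃ L, Cov wt F 1 u L ∧ 32 * N ^ 3 * wt X ≤ L := by
  intro X
  induction X using Finset.induction_on with
  | empty =>
    intro _ _
    refine ⟨F0, by simpa using hF0, L0, hcov0, ?_⟩
    simpa [wt] using hL0
  | @insert q X hq ih =>
    intro hX hXJ
    have hX1 : X ⊆ Q0 := (subset_insert _ _).trans hX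
    rw [card_insert_of_notMem hq] at hXJ
    obtain ⟨F, hF, L, hcov, hL⟩ := ih hX1 (by omega)
    have hqQ := hQ q (hX (mem_insert_self _ _))
    set X' := insert q X with hX'
    have hX'c : X'.card = X.card + 1 := card_insert_of_notMem hq
    set G := (powersetCard 2 (Q0 \ X')).image (fun Y => X' ∪ Y) with hG
    have hinj : Set.InjOn (fun Y : Finset ℕ => X' ∪ Y)
        ((powersetCard 2 (Q0 \ X') : Finset (Finset ℕ)) : Set (Finset ℕ)) := by
      intro Y hY Z hZ hYZ
      rw [mem_coe, mem_powersetCard] at hY hZ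
      have hdY : Disjoint X' Y := Finset.disjoint_left.mpr (fun a ha ha' =>
        (mem_sdiff.mp (hY.1 ha')).2 ha)
      have hdZ : Disjoint X' Z := Finset.disjoint_left.mpr (fun a ha ha' =>
        (mem_sdiff.mp (hZ.1 ha')).2 ha)
      have h1 : (X' ∪ Y) \ X' = Y := union_sdiff_cancel_left hdY
      have h2 : (X' ∪ Z) \ X' = Z := union_sdiff_cancel_left hdZ
      have h3 : X' ∪ Y = X' ∪ Z := hYZ
      rw [← h1, h3, h2]
    have hmem : ∀ Y ∈ powersetCard 2 (Q0 \ X'), Disjoint X' Y := by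
      intro Y hY
      rw [mem_powersetCard] at hY
      exact Finset.disjoint_left.mpr (fun a ha ha' => (mem_sdiff.mp (hY.1 ha')).2 ha)
    have hQs : ∀ p ∈ Q0 \ X', N ≤ p ∧ p < 2 * N := fun p hp => hQ p (mem_sdiff.mp hp).1
    have hdis : Disjoint F G := by
      rw [Finset.disjoint_left]
      intro T hT hT'
      rw [hG, mem_image] at hT'
      obtain ⟨Y, hY, rfl⟩ := hT'
      have h1 := (hF _ hT).2
      rw [card_union_of_disjoint (hmem Y hY), (mem_powersetCard.mp hY).2, hX'c] at h1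
      omega
    have hwX' : wt X' = q * wt X := wt_insert hq
    have hw : ∀ g ∈ G, wt g ≤ L + 1 := by
      intro g hg
      rw [hG, mem_image] at hg
      obtain ⟨Y, hY, rfl⟩ := hg
      rw [wt_union (hmem Y hY), hwX']
      have h1 := (pair_bounds hQs hY).2
      calc q * wt X * wt Y ≤ (2 * N) * wt X * (4 * N ^ 2) := by
            apply Nat.mul_le_mul _ h1
            exact Nat.mul_le_mul_right _ hqQ.2.le
        _ = 8 * N ^ 3 * wt X := by ring
        _ ≤ 32 * N ^ 3 * wt X := by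
            apply Nat.mul_le_mul_right
            omega
        _ ≤ L + 1 := by omega
    refine ⟨F ∪ G, ?_, _, hcov.extend hdis hw, ?_⟩
    · intro T hT
      rw [mem_union] at hT
      rcases hT with hT | hT
      · exact ⟨(hF T hT).1, by have := (hF T hT).2; omega⟩
      · rw [hG, mem_image] at hT
        obtain ⟨Y, hY, rfl⟩ := hT
        refine ⟨?_, ?_⟩
        · exact union_subset hX ((mem_powersetCard.mp hY).1.trans sdiff_subset)
        · show (X' ∪ Y).card ≤ _
          rw [card_union_of_disjoint (hmem Y hY), (mem_powersetCard.mp hY).2]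
    · have h1 : ∑ g ∈ G, wt g = ∑ Y ∈ powersetCard 2 (Q0 \ X'), wt (X' ∪ Y) := by
        rw [hG, sum_image hinj]
      have h2 : ∑ Y ∈ powersetCard 2 (Q0 \ X'), wt X' * N ^ 2
          ≤ ∑ Y ∈ powersetCard 2 (Q0 \ X'), wt (X' ∪ Y) := by
        apply sum_le_sum
        intro Y hY
        rw [wt_union (hmem Y hY)]
        exact Nat.mul_le_mul_left _ (pair_bounds hQs hY).1
      rw [sum_const, card_powersetCard, smul_eq_mul] at h2
      have h3 : 32 * N ≤ ((Q0 \ X').card).choose 2 := by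
        apply hJ.trans
        apply Nat.choose_le_choose
        rw [card_sdiff_of_subset hX, hX'c]
        omega
      calc 32 * N ^ 3 * wt X' = (32 * N) * (wt X' * N ^ 2) := by ring
        _ ≤ _ := Nat.mul_le_mul_right _ h3
        _ ≤ _ := h2
        _ = ∑ g ∈ G, wt g := h1.symm
        _ ≤ L + ∑ g ∈ G, wt g := by omega

/-- second climb -/
lemma climb2 (N u : ℕ) (Q0 : Finset ℕ) (hQ : ∀ p ∈ Q0, N ≤ p ∧ p < 2 * N) (hN : 0 < N)
    (X0 : Finset ℕ) (hX0 : X0 ⊆ Q0) (hX0c : 2 ≤ X0.card) (hJ : 8 * N ≤ (X0.card).choose 2)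
    (F0 : Finset (Finset ℕ)) (L0 : ℕ) (hF0 : ∀ T ∈ F0, T ⊆ Q0 ∧ T.card + 2 ≤ X0.card)
    (hcov0 : Cov wt F0 1 u L0) (hL0 : 2 * N * wt X0 ≤ N ^ 2 * L0) :
    ∀ Y : Finset ℕ, Disjoint X0 Y → Y ⊆ Q0 →
      ∃ F : Finset (Finset ℕ), (∀ T ∈ F, T ⊆ Q0 ∧ T.card + 2 ≤ (X0 ∪ Y).card) ∧
        ∃ L, Cov wt F 1 u L ∧ 2 * N * wt (X0 ∪ Y) ≤ N ^ 2 * L := by
  intro Y
  induction Y using Finset.induction_on with
  | empty =>
    intro _ _
    refine ⟨F0, by simpa using hF0, L0, hcov0, by simpa using hL0⟩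
  | @insert q Y hq ih =>
    intro hd hY
    obtain ⟨F, hF, L, hcov, hL⟩ := ih (hd.mono_right (subset_insert _ _))
      ((subset_insert _ _).trans hY)
    have hqX0 : q ∉ X0 := fun hc => (Finset.disjoint_left.mp hd) hc (mem_insert_self _ _)
    have hqQ := hQ q (hY (mem_insert_self _ _))
    set X := X0 ∪ Y with hX
    have hqX : q ∉ X := by
      rw [hX, mem_union]; rintro (h | h)
      · exact hqX0 h
      · exact hq h
    have hXX' : X0 ∪ insert q Y = insert q X := by rw [union_insert]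
    rw [hXX']
    set X' := insert q X with hX'
    have hXQ : X' ⊆ Q0 := by
      rw [← hXX']
      exact union_subset hX0 hY
    have hX'c : X'.card = X.card + 1 := card_insert_of_notMem hqX
    have hwX' : wt X' = q * wt X := wt_insert hqX
    set G := (powersetCard 2 X').image (fun Z => X' \ Z) with hG
    have hinj : Set.InjOn (fun Z : Finset ℕ => X' \ Z)
        ((powersetCard 2 X' : Finset (Finset ℕ)) : Set (Finset ℕ)) := by
      intro Y hY Z hZ hYZ
      rw [mem_coe, mem_powersetCard] at hY hZ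
      have h1 : X' \ (X' \ Y) = Y := by rw [sdiff_sdiff_right_self]; exact inter_eq_right.mpr hY.1
      have h2 : X' \ (X' \ Z) = Z := by rw [sdiff_sdiff_right_self]; exact inter_eq_right.mpr hZ.1
      have h3 : X' \ Y = X' \ Z := hYZ
      rw [← h1, h3, h2]
    have hQs : ∀ p ∈ X', N ≤ p ∧ p < 2 * N := fun p hp => hQ p (hXQ hp)
    have hcardG : ∀ Z ∈ powersetCard 2 X', (X' \ Z).card = X.card - 1 := by
      intro Z hZ
      rw [mem_powersetCard] at hZ
      rw [card_sdiff_of_subset hZ.1, hZ.2, hX'c]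
      omega
    have hXc2 : 2 ≤ X.card := hX0c.trans (card_le_card subset_union_left)
    have hdis : Disjoint F G := by
      rw [Finset.disjoint_left]
      intro T hT hT'
      rw [hG, mem_image] at hT'
      obtain ⟨Z, hZ, rfl⟩ := hT'
      have h1 := (hF _ hT).2
      rw [hcardG Z hZ] at h1
      omega
    have hup : ∀ Z ∈ powersetCard 2 X', N ^ 2 * wt (X' \ Z) ≤ wt X' := by
      intro Z hZ
      rw [← wt_sdiff (mem_powersetCard.mp hZ).1, mul_comm]
      exact Nat.mul_le_mul_left _ (pair_bounds hQs hZ).1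
    have hlo : ∀ Z ∈ powersetCard 2 X', wt X' ≤ 4 * N ^ 2 * wt (X' \ Z) := by
      intro Z hZ
      rw [← wt_sdiff (mem_powersetCard.mp hZ).1, mul_comm]
      exact Nat.mul_le_mul_right _ (pair_bounds hQs hZ).2
    have hw : ∀ g ∈ G, wt g ≤ L + 1 := by
      intro g hg
      rw [hG, mem_image] at hg
      obtain ⟨Z, hZ, rfl⟩ := hg
      have h1 : N ^ 2 * wt (X' \ Z) ≤ N ^ 2 * L := by
        calc N ^ 2 * wt (X' \ Z) ≤ wt X' := hup Z hZ
          _ = q * wt X := hwX'
          _ ≤ (2 * N) * wt X := Nat.mul_le_mul_right _ hqQ.2.le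
          _ ≤ N ^ 2 * L := hL
      exact (Nat.le_of_mul_le_mul_left h1 (by positivity)).trans (by omega)
    refine ⟨F ∪ G, ?_, _, hcov.extend hdis hw, ?_⟩
    · intro T hT
      rw [mem_union] at hT
      rcases hT with hT | hT
      · exact ⟨(hF T hT).1, by have := (hF T hT).2; omega⟩
      · rw [hG, mem_image] at hT
        obtain ⟨Z, hZ, rfl⟩ := hT
        refine ⟨sdiff_subset.trans hXQ, ?_⟩
        show (X' \ Z).card + 2 ≤ _
        rw [hcardG Z hZ]
        omega
    · have h1 : ∑ g ∈ G, wt g = ∑ Z ∈ powersetCard 2 X', wt (X' \ Z) := by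
        rw [hG, sum_image hinj]
      have h2 : ∑ Z ∈ powersetCard 2 X', wt X' ≤ ∑ Z ∈ powersetCard 2 X', 4 * N ^ 2 * wt (X' \ Z) :=
        sum_le_sum (fun Z hZ => hlo Z hZ)
      rw [sum_const, card_powersetCard, smul_eq_mul, ← mul_sum, ← h1] at h2
      have h3 : 8 * N ≤ (X'.card).choose 2 := by
        apply hJ.trans
        apply Nat.choose_le_choose
        rw [hX'c]
        have := card_le_card (show X0 ⊆ X from subset_union_left)
        omega
      have h4 : 8 * N * wt X' ≤ 4 * N ^ 2 * ∑ g ∈ G, wt g :=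
        (Nat.mul_le_mul_right _ h3).trans h2
      have h5 : N ^ 2 * ∑ g ∈ G, wt g ≤ N ^ 2 * (L + ∑ g ∈ G, wt g) :=
        Nat.mul_le_mul_left _ (by omega)
      nlinarith

/-- step A : subset sums of the products of proper subsets of `Q0` -/
lemma stepA (N l s : ℕ) (hl : 1 ≤ l) (hbig : 200000 * (2 * l) ^ 7 ≤ N) (hNs : N ≤ l * s)
    (Q0 : Finset ℕ) (hc : Q0.card = 4 * s)
    (hQ : ∀ a ∈ Q0, a.Prime ∧ N ≤ a ∧ a < 2 * N) :
    ∃ F : Finset (Finset ℕ), (∀ T ∈ F, T ⊂ Q0) ∧
      ∃ u L, Cov wt F 1 u L ∧ u ≤ 16 * N ^ 4 ∧ 2 * wt Q0 ≤ N * L := by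
  have hlpos : 0 < l := hl
  have hN0 : 0 < N := by
    have : 1 ≤ (2 * l) ^ 7 := Nat.one_le_pow _ _ (by omega)
    omega
  have hsl : 32 * l + 2 ≤ s := by
    by_contra hcon
    push Not at hcon
    have h1 : l * s ≤ l * (32 * l + 1) := Nat.mul_le_mul_left _ (by omega)
    have h2 : l * (32 * l + 1) ≤ 33 * l ^ 2 := by nlinarith
    have h3 : l ^ 2 ≤ l ^ 7 := Nat.pow_le_pow_right hlpos (by norm_num)
    have h4 : (2 * l) ^ 7 = 128 * l ^ 7 := by ring
    have h5 : 0 < l ^ 7 := by positivity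
    omega
  -- split Q0
  obtain ⟨A1, hA1, hA1c⟩ := exists_subset_card_eq (s := Q0) (n := s) (by omega)
  obtain ⟨A2, hA2, hA2c⟩ := exists_subset_card_eq (s := Q0 \ A1) (n := s) (by
    rw [card_sdiff_of_subset hA1]; omega)
  have hA2Q : A2 ⊆ Q0 := hA2.trans sdiff_subset
  have hd12 : Disjoint A1 A2 := Finset.disjoint_left.mpr (fun a ha ha' =>
    (mem_sdiff.mp (hA2 ha')).2 ha)
  have hA12c : (A1 ∪ A2).card = 2 * s := by
    rw [card_union_of_disjoint hd12]; omega
  have hA12 : A1 ∪ A2 ⊆ Q0 := union_subset hA1 hA2Q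
  obtain ⟨A3, hA3, hA3c⟩ := exists_subset_card_eq (s := Q0 \ (A1 ∪ A2)) (n := s) (by
    rw [card_sdiff_of_subset hA12]; omega)
  have hA3Q : A3 ⊆ Q0 := hA3.trans sdiff_subset
  have hd123 : Disjoint (A1 ∪ A2) A3 := Finset.disjoint_left.mpr (fun a ha ha' =>
    (mem_sdiff.mp (hA3 ha')).2 ha)
  set A := (A1 ∪ A2) ∪ A3 with hA
  have hAQ : A ⊆ Q0 := union_subset hA12 hA3Q
  have hAc : A.card = 3 * s := by
    rw [hA, card_union_of_disjoint hd123]; omega
  set Q2 := Q0 \ A with hQ2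
  have hQ2c : Q2.card = s := by
    rw [hQ2, card_sdiff_of_subset hAQ]; omega
  have hAQ2 : A ∪ Q2 = Q0 := union_sdiff_of_subset hAQ
  have hdAQ2 : Disjoint A Q2 := disjoint_sdiff
  obtain ⟨u1, L1, hL1, hcov1⟩ := seed N (2 * l) s (by omega) hbig
    (by nlinarith) A1 A2 A3 hd12 hd123 hA1c hA2c hA3c (fun a ha => hQ a (hAQ ha))
  -- the number of elements
  have h4sN : 4 * s ≤ N := by
    have h1 : Q0 ⊆ Ico N (2 * N) := by
      intro a ha
      rw [mem_Ico]; exact (hQ a ha).2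
    have h2 := card_le_card h1
    rw [Nat.card_Ico, hc] at h2
    omega
  have hlN : 2 * N ≤ L1 := by
    have : 16 * (2 * l) * N = 30 * (l * N) + 2 * (l * N) := by ring
    have : N ≤ l * N := Nat.le_mul_of_pos_left _ hlpos
    omega
  obtain ⟨F0, hF0, hcov0⟩ := level2 N u1 L1 A hcov1 hlN Q2 hdAQ2
    (fun q hq => (hQ q (sdiff_subset hq)).2.2)
  rw [hAQ2] at hF0
  set u := u1 * (1 + ∑ q ∈ Q2, q) with hu
  set L0 := L1 * (1 + ∑ q ∈ Q2, q) with hL0
  have hsumlo : s * N ≤ ∑ q ∈ Q2, q := by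
    calc s * N = ∑ q ∈ Q2, N := by rw [sum_const, hQ2c, smul_eq_mul]
      _ ≤ _ := sum_le_sum (fun q hq => (hQ q (sdiff_subset hq)).2.1)
  have hsumhi : ∑ q ∈ Q2, q ≤ s * (2 * N) := by
    calc ∑ q ∈ Q2, q ≤ ∑ q ∈ Q2, 2 * N :=
          sum_le_sum (fun q hq => (hQ q (sdiff_subset hq)).2.2.le)
      _ = s * (2 * N) := by rw [sum_const, hQ2c, smul_eq_mul]
  have hL0big : 32 * N ^ 3 ≤ L0 := by
    have h1 : 16 * (2 * l) * N * (s * N) ≤ L0 := Nat.mul_le_mul hL1 (by omega)
    have h2 : 32 * N ^ 3 ≤ 16 * (2 * l) * N * (s * N) := by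
      calc 32 * N ^ 3 = 32 * N ^ 2 * N := by ring
        _ ≤ 32 * N ^ 2 * (l * s) := Nat.mul_le_mul_left _ hNs
        _ = _ := by ring
    exact h2.trans h1
  have hubig : u ≤ 16 * N ^ 4 := by
    have h1 : u1 ≤ 6 * (s * N) := by
      have h2 := hcov1.u_le
      have h3 : ∑ i ∈ A1 ∪ A2 ∪ A3, i ≤ ∑ i ∈ A, 2 * N :=
        sum_le_sum (fun q hq => (hQ q (hAQ hq)).2.2.le)
      rw [sum_const, hAc, smul_eq_mul] at h3
      have h4 : u1 ≤ 3 * s * (2 * N) := h2.trans h3
      linarith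
    have h5 : s * N ≤ N * N := Nat.mul_le_mul_right _ (by omega)
    have h6 : 1 ≤ N * N := Nat.mul_pos hN0 hN0
    calc u ≤ (6 * (s * N)) * (1 + s * (2 * N)) := Nat.mul_le_mul h1 (by omega)
      _ ≤ (2 * (N * N)) * (N * N + N * N) := by
          apply Nat.mul_le_mul
          · have : 4 * s * N ≤ N * N := Nat.mul_le_mul_right _ h4sN
            have : 6 * (s * N) ≤ 2 * (4 * s * N) := by
              have : 2 * (4 * s * N) = 8 * (s * N) := by ring
              omega
            omega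
          · have : 4 * s * N ≤ N * N := Nat.mul_le_mul_right _ h4sN
            have : s * (2 * N) ≤ 4 * s * N := by
              have h8 : 4 * s * N = 4 * (s * N) := by ring
              have h9 : s * (2 * N) = 2 * (s * N) := by ring
              omega
            omega
      _ = 4 * N ^ 4 := by ring
      _ ≤ 16 * N ^ 4 := by
          apply Nat.mul_le_mul_right; norm_num
  have hQ' : ∀ p ∈ Q0, N ≤ p ∧ p < 2 * N := fun p hp => (hQ p hp).2
  have hchoose : 32 * N ≤ (2 * s).choose 2 := by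
    rw [Nat.choose_two_right]
    have h1 : 2 * s * (2 * s - 1) / 2 = s * (2 * s - 1) := by
      rw [mul_assoc, Nat.mul_div_cancel_left _ (by norm_num)]
    rw [h1]
    calc 32 * N ≤ 32 * (l * s) := Nat.mul_le_mul_left _ hNs
      _ = s * (32 * l) := by ring
      _ ≤ s * (2 * s - 1) := Nat.mul_le_mul_left _ (by omega)
  -- climb 1
  obtain ⟨X, hXQ, hXc⟩ := exists_subset_card_eq (s := Q0) (n := 2 * s) (by omega)
  obtain ⟨F1, hF1, L2, hcov2, hL2⟩ := climb1 N u Q0 hQ' hN0 (2 * s)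
    (by rw [hc]; have : 4 * s - 2 * s = 2 * s := by omega
        rw [this]; exact hchoose) F0 L0 hF0 hcov0 hL0big X hXQ hXc.le
  -- four more elements
  obtain ⟨Z, hZ, hZc⟩ := exists_subset_card_eq (s := Q0 \ X) (n := 4) (by
    rw [card_sdiff_of_subset hXQ]; omega)
  have hZQ : Z ⊆ Q0 := hZ.trans sdiff_subset
  have hdXZ : Disjoint X Z := Finset.disjoint_left.mpr (fun a ha ha' =>
    (mem_sdiff.mp (hZ ha')).2 ha)
  have hX0c : (X ∪ Z).card = 2 * s + 4 := by
    rw [card_union_of_disjoint hdXZ, hXc, hZc]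
  have hX0Q : X ∪ Z ⊆ Q0 := union_subset hXQ hZQ
  have hstart : 2 * N * wt (X ∪ Z) ≤ N ^ 2 * L2 := by
    rw [wt_union hdXZ]
    have h1 : wt Z ≤ 16 * N ^ 4 := by
      have := wt_le (T := Z) (N := 2 * N) (fun p hp => (hQ' p (hZQ hp)).2.le)
      rw [hZc] at this
      calc wt Z ≤ (2 * N) ^ 4 := this
        _ = 16 * N ^ 4 := by ring
    calc 2 * N * (wt X * wt Z) ≤ 2 * N * (wt X * (16 * N ^ 4)) :=
          Nat.mul_le_mul_left _ (Nat.mul_le_mul_left _ h1)
      _ = N ^ 2 * (32 * N ^ 3 * wt X) := by ring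
      _ ≤ N ^ 2 * L2 := Nat.mul_le_mul_left _ hL2
  obtain ⟨F2, hF2, L3, hcov3, hL3⟩ := climb2 N u Q0 hQ' hN0 (X ∪ Z) hX0Q (by omega)
    (by rw [hX0c]
        have : 8 * N ≤ 32 * N := by omega
        exact this.trans (hchoose.trans (Nat.choose_le_choose _ (by omega))))
    F1 L2 (fun T hT => ⟨(hF1 T hT).1, by have := (hF1 T hT).2; omega⟩) hcov2 hstart
    (Q0 \ (X ∪ Z)) disjoint_sdiff sdiff_subset
  rw [union_sdiff_of_subset hX0Q] at hF2 hL3
  refine ⟨F2, ?_, u, L3, hcov3, hubig, ?_⟩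
  · intro T hT
    refine (ssubset_iff_subset_ne).mpr ⟨(hF2 T hT).1, ?_⟩
    rintro rfl
    have := (hF2 _ hT).2
    omega
  · have h1 : N * (2 * wt Q0) ≤ N * (N * L3) := by
      calc N * (2 * wt Q0) = 2 * N * wt Q0 := by ring
        _ ≤ N ^ 2 * L3 := hL3
        _ = N * (N * L3) := by ring
    exact Nat.le_of_mul_le_mul_left h1 hN0

end Pool.Agent.U445.Weird
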