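import Mathlib
import Pool.Agent.U445.WeirdC

/-!
Subset sums: multiplying by the remaining primes, the greedy lemma, and the conclusion.
-/

set_option autoImplicit false

namespace Pool.Agent.U445.Weird

open Finset

/-- step B -/
lemma stepB (Q0 : Finset ℕ) (F : Finset (Finset ℕ)) (u L : ℕ) (hF : ∀ T ∈ F, T ⊂ Q0)
    (hcov : Cov wt F 1 u L) :
    ∀ P : Finset ℕ, Disjoint Q0 P → (∀ p ∈ P, p ≤ L + 1) →
      ∃ F' : Finset (Finset ℕ), (∀ T ∈ F', T ⊆ Q0 ∪ P ∧ ¬ Q0 ⊆ T) ∧
        Cov wt F' 1 (u * ∏ p ∈ P, (1 + p)) (L * ∏ p ∈ P, (1 + p)) := by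
  intro P
  induction P using Finset.induction_on with
  | empty =>
    intro _ _
    refine ⟨F, fun T hT => ⟨by simpa using (hF T hT).1, (hF T hT).2⟩, by simpa using hcov⟩
  | @insert q P hq ih =>
    intro hd hle
    obtain ⟨F', hF', hcov'⟩ := ih (hd.mono_right (subset_insert _ _))
      (fun x hx => hle x (mem_insert_of_mem hx))
    have hqQ : q ∉ Q0 := fun hc => (Finset.disjoint_left.mp hd) hc (mem_insert_self _ _)
    have hqT : ∀ T ∈ F', q ∉ T := by
      intro T hT hc
      have := (hF' T hT).1 hc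
      rw [mem_union] at this
      rcases this with h | h
      · exact hqQ h
      · exact hq h
    have h := hcov'.transfer (w' := wt) (c := q) (fun T => insert q T)
      (by
        intro T hT T' hT' hTT'
        have h1 : (insert q T).erase q = T := erase_insert (hqT T hT)
        have h2 : (insert q T').erase q = T' := erase_insert (hqT T' hT')
        have h3 : insert q T = insert q T' := hTT'
        rw [← h1, h3, h2]) (fun T hT => wt_insert (hqT T hT))
    have hdis : Disjoint F' (F'.image (fun T => insert q T)) := by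
      rw [Finset.disjoint_left]
      intro T hT hT'
      rw [mem_image] at hT'
      obtain ⟨a, ha, rfl⟩ := hT'
      exact hqT _ hT (mem_insert_self _ _)
    have hpos : 0 < ∏ p ∈ P, (1 + p) := prod_pos (fun p _ => by omega)
    have hq2 : q ≤ L * (∏ p ∈ P, (1 + p)) + 1 := by
      have h1 := hle q (mem_insert_self _ _)
      have h2 : L ≤ L * (∏ p ∈ P, (1 + p)) := Nat.le_mul_of_pos_right _ hpos
      omega
    have h2 := hcov'.addMul hdis h hq2
    refine ⟨F' ∪ F'.image (fun T => insert q T), ?_, ?_⟩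
    · intro T hT
      rw [mem_union] at hT
      rcases hT with hT | hT
      · exact ⟨(hF' T hT).1.trans (union_subset_union_right (subset_insert _ _)), (hF' T hT).2⟩
      · rw [mem_image] at hT
        obtain ⟨a, ha, rfl⟩ := hT
        refine ⟨?_, ?_⟩
        · rw [union_insert]
          exact insert_subset_insert _ (hF' a ha).1
        · intro hc
          apply (hF' a ha).2
          intro x hx
          have := hc hx
          rw [mem_insert] at this
          rcases this with rfl | h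
          · exact absurd hx hqQ
          · exact h
    · convert h2 using 1
      · rw [prod_insert hq]; ring
      · rw [prod_insert hq]; ring

/-- greedy lemma -/
lemma greedy (f : ℕ → ℝ) (g : ℝ) (hg : 0 ≤ g) :
    ∀ (n : ℕ) (P : Finset ℕ), P.card = n → (∀ p ∈ P, 0 ≤ f p) →
      (∀ p ∈ P, f p ≤ g + ∑ p' ∈ P.filter (fun p' => p < p'), f p') →
      ∀ τ : ℝ, 0 ≤ τ → τ ≤ ∑ p ∈ P, f p →
        ∃ S ⊆ P, τ - g ≤ ∑ p ∈ S, f p ∧ ∑ p ∈ S, f p ≤ τ := by
  intro n
  induction n with
  | zero =>
    intro P hP _ _ τ hτ hτ'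
    rw [card_eq_zero] at hP
    subst hP
    refine ⟨∅, by simp, ?_, ?_⟩
    · simp at hτ' ⊢; linarith
    · simpa using hτ
  | succ n ih =>
    intro P hP hf hgap τ hτ hτ'
    have hne : P.Nonempty := by rw [← card_pos]; omega
    set p := P.min' hne with hp
    have hpP : p ∈ P := min'_mem _ _
    have hfilter : P.filter (fun p' => p < p') = P.erase p := by
      ext x
      rw [mem_filter, mem_erase]
      constructor
      · rintro ⟨h1, h2⟩; exact ⟨by omega, h1⟩
      · rintro ⟨h1, h2⟩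
        refine ⟨h2, ?_⟩
        have := min'_le P x h2
        omega
    have hgp := hgap p hpP
    rw [hfilter] at hgp
    have hsum : ∑ x ∈ P, f x = f p + ∑ x ∈ P.erase p, f x := (add_sum_erase _ _ hpP).symm
    have hih := ih (P.erase p) (by rw [card_erase_of_mem hpP]; omega)
      (fun x hx => hf x (mem_of_mem_erase hx))
      (by
        intro x hx
        have h1 := hgap x (mem_of_mem_erase hx)
        have h2 : P.filter (fun p' => x < p') = (P.erase p).filter (fun p' => x < p') := by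
          ext y
          rw [mem_filter, mem_filter, mem_erase]
          constructor
          · rintro ⟨h3, h4⟩
            refine ⟨⟨?_, h3⟩, h4⟩
            have := min'_le P x (mem_of_mem_erase hx)
            omega
          · rintro ⟨⟨_, h3⟩, h4⟩; exact ⟨h3, h4⟩
        rwa [h2] at h1)
    by_cases h1 : τ ≤ ∑ x ∈ P.erase p, f x
    · obtain ⟨S, hS, hS1, hS2⟩ := hih τ hτ h1
      exact ⟨S, hS.trans (erase_subset _ _), hS1, hS2⟩
    · push Not at h1
      by_cases h2 : f p ≤ τ
      · obtain ⟨S, hS, hS1, hS2⟩ := hih (τ - f p) (by linarith) (by linarith)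
        refine ⟨insert p S, ?_, ?_, ?_⟩
        · intro x hx
          rw [mem_insert] at hx
          rcases hx with rfl | hx
          · exact hpP
          · exact mem_of_mem_erase (hS hx)
        · rw [sum_insert (fun hc => (mem_erase.mp (hS hc)).1 rfl)]
          linarith
        · rw [sum_insert (fun hc => (mem_erase.mp (hS hc)).1 rfl)]
          linarith
      · push Not at h2
        refine ⟨P.erase p, erase_subset _ _, ?_, h1.le⟩
        linarith

lemma prod_succ_le (M : ℕ) : ∀ P : Finset ℕ, P ⊆ Ico 1 M → 1 ≤ M →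
    ∏ p ∈ P, (1 + p) ≤ M * ∏ p ∈ P, p := by
  induction M with
  | zero => intro P _ h; omega
  | succ M ih =>
    intro P hP _
    by_cases hM0 : M = 0
    · subst hM0
      have : P = ∅ := by
        rw [← subset_empty]
        simpa using hP
      subst this
      simp
    by_cases hM : M ∈ P
    · have h1 := ih (P.erase M) (by
        intro x hx
        rw [mem_erase] at hx
        have := hP hx.2
        rw [mem_Ico] at this ⊢
        omega) (by omega)
      rw [← mul_prod_erase _ _ hM, ← mul_prod_erase (a := M) P (fun p => p) hM]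
      calc (1 + M) * ∏ x ∈ P.erase M, (1 + x) ≤ (1 + M) * (M * ∏ x ∈ P.erase M, x) :=
            Nat.mul_le_mul_left _ h1
        _ = _ := by ring
    · have h1 := ih P (by
        intro x hx
        have := hP hx
        have hxM : x ≠ M := fun hc => hM (hc ▸ hx)
        rw [mem_Ico] at this ⊢
        omega) (by omega)
      exact h1.trans (Nat.mul_le_mul_right _ (by omega))

/-- step C -/
lemma stepC (N l s : ℕ) (hl : 1 ≤ l) (hbig : 200000 * (2 * l) ^ 7 ≤ N) (hNs : N ≤ l * s)
    (Q0 : Finset ℕ) (hc : Q0.card = 4 * s)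
    (hQ : ∀ a ∈ Q0, a.Prime ∧ N ≤ a ∧ a < 2 * N)
    (P : Finset ℕ) (hd : Disjoint Q0 P) (hP : ∀ p ∈ P, 0 < p ∧ p < 2 * N)
    (hgap : ∀ p ∈ P, (1 : ℝ) / p ≤ 1 / N + ∑ p' ∈ P.filter (fun p' => p < p'), (1 : ℝ) / p')
    (hmass : 1 ≤ ∑ p ∈ P, (1 : ℝ) / p) :
    ∃ A : Finset (Finset ℕ), (∀ T ∈ A, T ⊂ Q0 ∪ P) ∧ ∑ T ∈ A, wt T = wt (Q0 ∪ P) := by
  have hN0 : 0 < N := by
    have : 1 ≤ (2 * l) ^ 7 := Nat.one_le_pow _ _ (by omega)
    omega
  have hN2 : 200000 ≤ N := by
    have : 1 ≤ (2 * l) ^ 7 := Nat.one_le_pow _ _ (by omega)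
    omega
  have hs2 : 2 ≤ s := by
    by_contra hcon
    have h1 : l * s ≤ l * 1 := Nat.mul_le_mul_left _ (by omega)
    have h2 : l ≤ l ^ 7 := Nat.le_self_pow (by norm_num) l
    have h3 : (2 * l) ^ 7 = 128 * l ^ 7 := by ring
    omega
  obtain ⟨F, hF, u, L, hcov, hu, hL⟩ := stepA N l s hl hbig hNs Q0 hc hQ
  have hwtQ0 : N ^ 7 ≤ wt Q0 := by
    calc N ^ 7 ≤ N ^ Q0.card := Nat.pow_le_pow_right hN0 (by omega)
      _ ≤ wt Q0 := le_wt (fun p hp => (hQ p hp).2.1)
  have hL2N : 2 * N ≤ L := by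
    have h1 : N * (2 * N) ≤ N * L := by
      calc N * (2 * N) = 2 * N ^ 2 := by ring
        _ ≤ 2 * N ^ 7 := Nat.mul_le_mul_left _ (Nat.pow_le_pow_right hN0 (by norm_num))
        _ ≤ 2 * wt Q0 := Nat.mul_le_mul_left _ hwtQ0
        _ ≤ N * L := hL
    exact Nat.le_of_mul_le_mul_left h1 hN0
  obtain ⟨F', hF', hcov'⟩ := stepB Q0 F u L hF hcov P hd (fun p hp => by
    have := (hP p hp).2; omega)
  set σ := ∏ p ∈ P, (1 + p) with hσ
  have hσle : σ ≤ 2 * N * wt P := prod_succ_le (2 * N) P (by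
    intro x hx; rw [mem_Ico]; exact hP x hx) (by omega)
  have hσge : wt P ≤ σ := by
    rw [hσ]; unfold wt
    exact prod_le_prod' (fun p _ => by omega)
  -- greedy
  obtain ⟨S, hSP, hS1, hS2⟩ := greedy (fun p => (1 : ℝ) / p) (1 / N) (by positivity) _ P rfl
    (fun p _ => by positivity) hgap (1 - 1 / N) (by
      rw [sub_nonneg, div_le_one (by positivity)]
      exact_mod_cast hN0) (by
      have : (0 : ℝ) ≤ 1 / N := by positivity
      linarith)
  set M := wt (Q0 ∪ P) with hM
  have hMmul : M = wt Q0 * wt P := wt_union hd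
  have hposall : ∀ p ∈ Q0 ∪ P, 0 < p := by
    intro p hp
    rw [mem_union] at hp
    rcases hp with hp | hp
    · exact (hQ p hp).1.pos
    · exact (hP p hp).1
  have herase : ∀ p ∈ P, (wt ((Q0 ∪ P).erase p) : ℝ) = M * (1 / p) := by
    intro p hp
    have h1 : p * wt ((Q0 ∪ P).erase p) = M := by
      rw [hM]; unfold wt
      exact mul_prod_erase (Q0 ∪ P) (fun p => p) (mem_union_right _ hp)
    have h2 : (p : ℝ) ≠ 0 := by
      have := (hP p hp).1
      positivity
    have h3 : (p : ℝ) * wt ((Q0 ∪ P).erase p) = M := by exact_mod_cast h1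
    rw [← h3]
    field_simp
  have hsumS : ((∑ p ∈ S, wt ((Q0 ∪ P).erase p) : ℕ) : ℝ) = M * ∑ p ∈ S, (1 : ℝ) / p := by
    push_cast
    rw [mul_sum]
    exact sum_congr rfl (fun p hp => herase p (hSP hp))
  have hMpos : 0 < M := wt_pos hposall
  have hMposR : (0 : ℝ) < M := by exact_mod_cast hMpos
  have hNposR : (0 : ℝ) < N := by exact_mod_cast hN0
  -- upper and lower bounds
  have hub : N * (∑ p ∈ S, wt ((Q0 ∪ P).erase p)) + M ≤ N * M := by
    have h1 : (N : ℝ) * ((∑ p ∈ S, wt ((Q0 ∪ P).erase p) : ℕ) : ℝ) + M ≤ N * M := by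
      rw [hsumS]
      have h2 : (M : ℝ) * ∑ p ∈ S, (1 : ℝ) / p ≤ M * (1 - 1 / N) :=
        mul_le_mul_of_nonneg_left hS2 hMposR.le
      calc (N : ℝ) * (M * ∑ p ∈ S, (1 : ℝ) / p) + M ≤ N * (M * (1 - 1 / N)) + M := by
            have := mul_le_mul_of_nonneg_left h2 hNposR.le
            linarith
        _ = N * M := by field_simp; ring
    exact_mod_cast h1
  have hlb : N * M ≤ N * (∑ p ∈ S, wt ((Q0 ∪ P).erase p)) + 2 * M := by
    have h1 : (N : ℝ) * M ≤ N * ((∑ p ∈ S, wt ((Q0 ∪ P).erase p) : ℕ) : ℝ) + 2 * M := by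
      rw [hsumS]
      have h2 : (M : ℝ) * (1 - 1 / N - 1 / N) ≤ M * ∑ p ∈ S, (1 : ℝ) / p :=
        mul_le_mul_of_nonneg_left hS1 hMposR.le
      calc (N : ℝ) * M = N * (M * (1 - 1 / N - 1 / N)) + 2 * M := by field_simp; ring
        _ ≤ _ := by
            have := mul_le_mul_of_nonneg_left h2 hNposR.le
            linarith
    exact_mod_cast h1
  set W := ∑ p ∈ S, wt ((Q0 ∪ P).erase p) with hW
  have hWM : W ≤ M := by
    have h1 : N * W ≤ N * M := by omega
    exact Nat.le_of_mul_le_mul_left h1 hN0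
  obtain ⟨t, ht⟩ : ∃ t, M = W + t := ⟨M - W, by omega⟩
  have ht1 : M ≤ N * t := by
    have : N * M = N * W + N * t := by rw [ht]; ring
    omega
  have ht2 : N * t ≤ 2 * M := by
    have : N * M = N * W + N * t := by rw [ht]; ring
    omega
  have hut : u * σ ≤ t := by
    have h1 : N * (u * σ) ≤ N * t := by
      calc N * (u * σ) ≤ N * (16 * N ^ 4 * (2 * N * wt P)) :=
            Nat.mul_le_mul_left _ (Nat.mul_le_mul hu hσle)
        _ = (32 * N ^ 6) * wt P := by ring
        _ ≤ (N ^ 7) * wt P := by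
            apply Nat.mul_le_mul_right
            calc 32 * N ^ 6 ≤ N * N ^ 6 := Nat.mul_le_mul_right _ (by omega)
              _ = N ^ 7 := by ring
        _ ≤ wt Q0 * wt P := Nat.mul_le_mul_right _ hwtQ0
        _ = M := hMmul.symm
        _ ≤ N * t := ht1
    exact Nat.le_of_mul_le_mul_left h1 hN0
  have htL : t ≤ L * σ := by
    have h1 : N * t ≤ N * (L * σ) := by
      calc N * t ≤ 2 * M := ht2
        _ = 2 * wt Q0 * wt P := by rw [hMmul]; ring
        _ ≤ N * L * σ := Nat.mul_le_mul hL hσge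
        _ = N * (L * σ) := by ring
    exact Nat.le_of_mul_le_mul_left h1 hN0
  obtain ⟨A, hA, hAs⟩ := hcov' (t - u * σ) (by omega)
  have hAs' : ∑ T ∈ A, wt T = t := by rw [hAs]; omega
  have hinj : Set.InjOn (fun p : ℕ => (Q0 ∪ P).erase p) (S : Set ℕ) := by
    intro a ha b hb hab
    exact Finset.erase_injOn _ (mem_coe.mpr (mem_union_right _ (hSP ha)))
      (mem_coe.mpr (mem_union_right _ (hSP hb))) hab
  have hdis : Disjoint A (S.image (fun p => (Q0 ∪ P).erase p)) := by
    rw [Finset.disjoint_left]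
    intro T hT hT'
    rw [mem_image] at hT'
    obtain ⟨p, hp, rfl⟩ := hT'
    apply (hF' _ (hA hT)).2
    intro x hx
    rw [mem_erase]
    refine ⟨?_, mem_union_left _ hx⟩
    rintro rfl
    exact (Finset.disjoint_left.mp hd) hx (hSP hp)
  refine ⟨A ∪ S.image (fun p => (Q0 ∪ P).erase p), ?_, ?_⟩
  · intro T hT
    rw [mem_union] at hT
    rcases hT with hT | hT
    · refine ⟨(hF' T (hA hT)).1, ?_⟩
      intro hcon
      exact (hF' T (hA hT)).2 (subset_union_left.trans hcon)
    · rw [mem_image] at hT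
      obtain ⟨p, hp, rfl⟩ := hT
      exact erase_ssubset (mem_union_right _ (hSP hp))
  · rw [sum_union hdis, sum_image hinj, hAs', ht]
    omega

end Pool.Agent.U445.Weird
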