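import Mathlib
import Pool.Agent.U445.WeirdD

/-!
Selection of the dyadic block, and the conclusion about sets of primes of large reciprocal mass.
-/

set_option autoImplicit false

namespace Pool.Agent.U445.Weird

open Finset

lemma log_bounds {p : ℕ} (hp : 0 < p) : 2 ^ Nat.log 2 p ≤ p ∧ p < 2 * 2 ^ Nat.log 2 p := by
  constructor
  · exact Nat.pow_log_le_self 2 (by omega)
  · have := Nat.lt_pow_succ_log_self (b := 2) (by norm_num) p
    calc p < 2 ^ (Nat.log 2 p).succ := this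
      _ = 2 * 2 ^ Nat.log 2 p := by rw [Nat.succ_eq_add_one, pow_succ]; ring

/-- mass of the poor blocks -/
lemma poor_mass (P R : Finset ℕ) (hP : ∀ p ∈ P, 0 < p ∧ 2 ≤ Nat.log 2 p)
    (hR : R = P.filter (fun p => 2 ^ (Nat.log 2 p) ≤
      (Nat.log 2 p) ^ 2 * (P.filter (fun q => Nat.log 2 q = Nat.log 2 p)).card)) :
    ∑ p ∈ P \ R, (1 : ℝ) / p ≤ 1 := by
  set n := P.sup (Nat.log 2) with hn
  have hmaps : ∀ p ∈ P \ R, Nat.log 2 p ∈ Ioc 1 (n + 1) := by
    intro p hp
    have hp' := (mem_sdiff.mp hp).1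
    rw [mem_Ioc]
    refine ⟨by have := (hP p hp').2; omega, ?_⟩
    have : Nat.log 2 p ≤ n := le_sup (f := Nat.log 2) hp'
    omega
  rw [← sum_fiberwise_of_maps_to hmaps]
  have h1 : ∀ i ∈ Ioc 1 (n + 1), ∑ p ∈ (P \ R).filter (fun p => Nat.log 2 p = i), (1 : ℝ) / p
      ≤ ((i : ℝ) ^ 2)⁻¹ := by
    intro i hi
    rw [mem_Ioc] at hi
    have hi0 : (0 : ℝ) < i := by
      have : 0 < i := by omega
      exact_mod_cast this
    by_cases hrich : 2 ^ i ≤ i ^ 2 * (P.filter (fun q => Nat.log 2 q = i)).card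
    · have hempty : (P \ R).filter (fun p => Nat.log 2 p = i) = ∅ := by
        rw [filter_eq_empty_iff]
        intro p hp hpi
        rw [mem_sdiff] at hp
        apply hp.2
        rw [hR, mem_filter]
        refine ⟨hp.1, ?_⟩
        rw [hpi]
        exact hrich
      rw [hempty, sum_empty]
      positivity
    · push Not at hrich
      have hsub : (P \ R).filter (fun p => Nat.log 2 p = i) ⊆
          P.filter (fun q => Nat.log 2 q = i) := by
        intro p hp
        rw [mem_filter] at hp ⊢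
        exact ⟨(mem_sdiff.mp hp.1).1, hp.2⟩
      calc ∑ p ∈ (P \ R).filter (fun p => Nat.log 2 p = i), (1 : ℝ) / p
          ≤ ∑ p ∈ P.filter (fun q => Nat.log 2 q = i), (1 : ℝ) / p :=
            sum_le_sum_of_subset_of_nonneg hsub (fun p _ _ => by positivity)
        _ ≤ ∑ p ∈ P.filter (fun q => Nat.log 2 q = i), (1 : ℝ) / 2 ^ i := by
            apply sum_le_sum
            intro p hp
            rw [mem_filter] at hp
            apply one_div_le_one_div_of_le (by positivity)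
            have := (log_bounds (hP p hp.1).1).1
            rw [hp.2] at this
            exact_mod_cast this
        _ = ((P.filter (fun q => Nat.log 2 q = i)).card : ℝ) / 2 ^ i := by
            rw [sum_const, nsmul_eq_mul]; ring
        _ ≤ ((i : ℝ) ^ 2)⁻¹ := by
            rw [div_le_iff₀ (by positivity), inv_mul_eq_div, le_div_iff₀ (by positivity)]
            have h2 : ((i ^ 2 * (P.filter (fun q => Nat.log 2 q = i)).card : ℕ) : ℝ)
                ≤ ((2 ^ i : ℕ) : ℝ) := by exact_mod_cast hrich.le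
            push_cast at h2
            linarith
  have h2 := sum_le_sum h1
  have h3 := sum_Ioc_inv_sq_le_sub (α := ℝ) (k := 1) (n := n + 1) (by norm_num) (by omega)
  have h4 : (0 : ℝ) ≤ ((n + 1 : ℕ) : ℝ)⁻¹ := by positivity
  have h5 : (((1 : ℕ) : ℝ))⁻¹ = 1 := by norm_num
  rw [h5] at h3
  linarith

lemma filt1 (R : Finset ℕ) (i k : ℕ) :
    (R.filter (fun p => i < Nat.log 2 p)).filter (fun p => Nat.log 2 p ≤ k)
      = (R.filter (fun p => Nat.log 2 p ≤ k)).filter (fun p' => i < Nat.log 2 p') := by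
  ext x
  simp only [mem_filter]
  tauto

lemma filt2 (R : Finset ℕ) (i k : ℕ) (hik : i < k) :
    (R.filter (fun p => i < Nat.log 2 p)).filter (fun p => ¬ Nat.log 2 p ≤ k)
      = R.filter (fun p => k < Nat.log 2 p) := by
  ext x
  simp only [mem_filter]
  constructor
  · rintro ⟨⟨h5, _⟩, h6⟩; exact ⟨h5, by omega⟩
  · rintro ⟨h5, h6⟩; exact ⟨⟨h5, by omega⟩, by omega⟩

/-- the selection, followed by step C -/
lemma select (i0 : ℕ) (hi0 : 2 ≤ i0)
    (hbig : ∀ i, i0 ≤ i → 200000 * (2 * (32 * i ^ 2)) ^ 7 ≤ 2 ^ i)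
    (P : Finset ℕ) (hP : ∀ p ∈ P, p.Prime ∧ 2 ^ i0 ≤ p) (hmass : 4 ≤ ∑ p ∈ P, (1 : ℝ) / p) :
    ∃ X ⊆ P, ∃ A : Finset (Finset ℕ), (∀ T ∈ A, T ⊂ X) ∧ ∑ T ∈ A, wt T = wt X := by
  have hlog : ∀ p ∈ P, i0 ≤ Nat.log 2 p := by
    intro p hp
    exact Nat.le_log_of_pow_le (by norm_num) (hP p hp).2
  set R := P.filter (fun p => 2 ^ (Nat.log 2 p) ≤
      (Nat.log 2 p) ^ 2 * (P.filter (fun q => Nat.log 2 q = Nat.log 2 p)).card) with hR
  have hRP : R ⊆ P := filter_subset _ _
  have hpos : ∀ p ∈ P, 0 < p := fun p hp => (hP p hp).1.pos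
  have hpoor := poor_mass P R (fun p hp => ⟨hpos p hp, by have := hlog p hp; omega⟩) hR
  have hRmass : 3 ≤ ∑ p ∈ R, (1 : ℝ) / p := by
    have := sum_sdiff hRP (f := fun p : ℕ => (1 : ℝ) / p)
    linarith
  have hRne : R.Nonempty := by
    rw [nonempty_iff_ne_empty]
    rintro h
    rw [h] at hRmass
    simp at hRmass
    linarith
  set T : ℕ → ℝ := fun i => ∑ p ∈ R.filter (fun p => i < Nat.log 2 p), (1 : ℝ) / p with hT
  set I := R.image (Nat.log 2) with hI
  have hIne : I.Nonempty := hRne.image _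
  set I' := I.filter (fun i => T i < 2 / 2 ^ i) with hI'
  have hI'ne : I'.Nonempty := by
    refine ⟨I.max' hIne, ?_⟩
    rw [hI', mem_filter]
    refine ⟨max'_mem _ _, ?_⟩
    have h1 : R.filter (fun p => I.max' hIne < Nat.log 2 p) = ∅ := by
      rw [filter_eq_empty_iff]
      intro p hp hlt
      have := le_max' I (Nat.log 2 p) (mem_image_of_mem _ hp)
      omega
    show ∑ p ∈ R.filter (fun p => I.max' hIne < Nat.log 2 p), (1 : ℝ) / p < _
    rw [h1, sum_empty]
    positivity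
  set k := I'.min' hI'ne with hk
  have hkI' : k ∈ I' := min'_mem _ _
  have hkI : k ∈ I := (mem_filter.mp hkI').1
  have hTk : T k < 2 / 2 ^ k := (mem_filter.mp hkI').2
  have hTi : ∀ i ∈ I, i < k → 2 / 2 ^ i ≤ T i := by
    intro i hi hik
    by_contra hcon
    push Not at hcon
    have : i ∈ I' := by rw [hI', mem_filter]; exact ⟨hi, hcon⟩
    have := min'_le I' i this
    omega
  obtain ⟨p0, hp0R, hp0k⟩ := mem_image.mp hkI
  have hi0k : i0 ≤ k := by
    rw [← hp0k]; exact hlog p0 (hRP hp0R)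
  set Bs := P.filter (fun q => Nat.log 2 q = k) with hBs
  have hrich : 2 ^ k ≤ k ^ 2 * Bs.card := by
    have := (mem_filter.mp hp0R).2
    rw [hp0k] at this
    exact this
  have hBsR : Bs ⊆ R := by
    intro q hq
    rw [hBs, mem_filter] at hq
    rw [hR, mem_filter]
    refine ⟨hq.1, ?_⟩
    rw [hq.2]
    exact hrich
  set N := 2 ^ k with hN
  have hNpos : 0 < N := by positivity
  have hNR : (N : ℝ) = 2 ^ k := by rw [hN]; push_cast; rfl
  have hNposR : (0 : ℝ) < N := by exact_mod_cast hNpos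
  have hk2 : 2 ≤ k := hi0.trans hi0k
  have hbigk := hbig k hi0k
  have hBs16 : 16 ≤ Bs.card := by
    by_contra hcon
    push Not at hcon
    have h1 : k ^ 2 * Bs.card ≤ k ^ 2 * 15 := Nat.mul_le_mul_left _ (by omega)
    have h2 : 2 * (32 * k ^ 2) ≤ (2 * (32 * k ^ 2)) ^ 7 := Nat.le_self_pow (by norm_num) _
    have h3 : 0 < k ^ 2 := by positivity
    omega
  set s := Bs.card / 16 with hs
  have hs32 : Bs.card ≤ 32 * s := by omega
  have h4s : 4 * s ≤ Bs.card := by omega
  obtain ⟨Q0, hQ0, hQ0c⟩ := exists_subset_card_eq (s := Bs) (n := 4 * s) h4s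
  have hNs : N ≤ (32 * k ^ 2) * s := by
    calc N ≤ k ^ 2 * Bs.card := hrich
      _ ≤ k ^ 2 * (32 * s) := Nat.mul_le_mul_left _ hs32
      _ = _ := by ring
  have hBsb : ∀ q ∈ Bs, q.Prime ∧ N ≤ q ∧ q < 2 * N := by
    intro q hq
    rw [hBs, mem_filter] at hq
    have := log_bounds (hpos q hq.1)
    rw [hq.2] at this
    exact ⟨(hP q hq.1).1, this⟩
  set P' := (R.filter (fun p => Nat.log 2 p ≤ k)) \ Q0 with hP'
  have hd : Disjoint Q0 P' := disjoint_sdiff
  -- masses
  have hQ0mass : ∑ p ∈ Q0, (1 : ℝ) / p ≤ (Bs.card : ℝ) / (4 * N) := by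
    calc ∑ p ∈ Q0, (1 : ℝ) / p ≤ ∑ p ∈ Q0, (1 : ℝ) / N := by
          apply sum_le_sum
          intro p hp
          apply one_div_le_one_div_of_le hNposR
          exact_mod_cast (hBsb p (hQ0 hp)).2.1
      _ = (Q0.card : ℝ) * (1 / N) := by rw [sum_const, nsmul_eq_mul]
      _ ≤ _ := by
          rw [hQ0c, mul_one_div, div_le_div_iff₀ hNposR (by positivity)]
          have h1 : ((16 * s : ℕ) : ℝ) ≤ (Bs.card : ℝ) := by
            exact_mod_cast (by omega : 16 * s ≤ Bs.card)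
          push_cast at h1 ⊢
          nlinarith
  have hBsmass : (Bs.card : ℝ) / (2 * N) ≤ ∑ p ∈ Bs, (1 : ℝ) / p := by
    calc (Bs.card : ℝ) / (2 * N) = ∑ p ∈ Bs, (1 : ℝ) / (2 * N) := by
          rw [sum_const, nsmul_eq_mul]; ring
      _ ≤ _ := by
          apply sum_le_sum
          intro p hp
          have h1 := (hBsb p hp).2
          apply one_div_le_one_div_of_le
          · have : 0 < p := by omega
            exact_mod_cast this
          · exact_mod_cast h1.2.le
  have hBssplit : ∑ p ∈ Bs \ Q0, (1 : ℝ) / p + ∑ p ∈ Q0, (1 : ℝ) / p = ∑ p ∈ Bs, (1 : ℝ) / p :=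
    sum_sdiff hQ0
  have hhalf : ∑ p ∈ Q0, (1 : ℝ) / p ≤ ∑ p ∈ Bs \ Q0, (1 : ℝ) / p := by
    have : (Bs.card : ℝ) / (2 * N) = 2 * ((Bs.card : ℝ) / (4 * N)) := by
      field_simp; ring
    linarith
  have hBsN : Bs.card ≤ N := by
    have h1 : Bs ⊆ Ico N (2 * N) := by
      intro q hq; rw [mem_Ico]; exact (hBsb q hq).2
    have := card_le_card h1
    rw [Nat.card_Ico] at this
    omega
  have hQ0R : Q0 ⊆ R.filter (fun p => Nat.log 2 p ≤ k) := by
    intro q hq
    rw [mem_filter]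
    refine ⟨hBsR (hQ0 hq), ?_⟩
    have := hQ0 hq
    rw [hBs, mem_filter] at this
    exact this.2.le
  have hP'mass : 1 ≤ ∑ p ∈ P', (1 : ℝ) / p := by
    have h1 : ∑ p ∈ P', (1 : ℝ) / p + ∑ p ∈ Q0, (1 : ℝ) / p
        = ∑ p ∈ R.filter (fun p => Nat.log 2 p ≤ k), (1 : ℝ) / p := sum_sdiff hQ0R
    have h2 : ∑ p ∈ R.filter (fun p => Nat.log 2 p ≤ k), (1 : ℝ) / p
        + ∑ p ∈ R.filter (fun p => ¬ Nat.log 2 p ≤ k), (1 : ℝ) / p = ∑ p ∈ R, (1 : ℝ) / p :=
      sum_filter_add_sum_filter_not _ _ _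
    have h3 : R.filter (fun p => ¬ Nat.log 2 p ≤ k) = R.filter (fun p => k < Nat.log 2 p) := by
      apply filter_congr
      intro p _
      exact not_le
    rw [h3] at h2
    have h4 : T k = ∑ p ∈ R.filter (fun p => k < Nat.log 2 p), (1 : ℝ) / p := rfl
    rw [← h4] at h2
    have h5 : (Bs.card : ℝ) / (4 * N) ≤ 1 / 4 := by
      rw [div_le_div_iff₀ (by positivity) (by norm_num)]
      have : (Bs.card : ℝ) ≤ N := by exact_mod_cast hBsN
      linarith
    have h6 : (2 : ℝ) / 2 ^ k ≤ 1 / 2 := by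
      rw [← hNR, div_le_div_iff₀ hNposR (by norm_num)]
      have : (4 : ℕ) ≤ N := by
        calc 4 = 2 ^ 2 := by norm_num
          _ ≤ 2 ^ k := Nat.pow_le_pow_right (by norm_num) hk2
      have : (4 : ℝ) ≤ N := by exact_mod_cast this
      linarith
    linarith
  have hgap : ∀ p ∈ P', (1 : ℝ) / p ≤
      1 / N + ∑ p' ∈ P'.filter (fun p' => p < p'), (1 : ℝ) / p' := by
    intro p hp
    rw [hP', mem_sdiff, mem_filter] at hp
    obtain ⟨⟨hpR, hpk⟩, hpQ⟩ := hp
    have hnn : 0 ≤ ∑ p' ∈ P'.filter (fun p' => p < p'), (1 : ℝ) / p' :=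
      sum_nonneg (fun _ _ => by positivity)
    have hpb := log_bounds (hpos p (hRP hpR))
    rcases eq_or_lt_of_le hpk with heq | hlt
    · rw [heq] at hpb
      have : (1 : ℝ) / p ≤ 1 / N := by
        apply one_div_le_one_div_of_le hNposR
        exact_mod_cast hpb.1
      linarith
    · set i := Nat.log 2 p with hi
      have hTi' := hTi i (mem_image_of_mem _ hpR) hlt
      have h1 : (1 : ℝ) / p ≤ 1 / 2 ^ i := by
        apply one_div_le_one_div_of_le (by positivity)
        exact_mod_cast hpb.1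
      have h2 : ∑ p' ∈ P'.filter (fun p' => i < Nat.log 2 p'), (1 : ℝ) / p'
          ≤ ∑ p' ∈ P'.filter (fun p' => p < p'), (1 : ℝ) / p' := by
        apply sum_le_sum_of_subset_of_nonneg
        · intro x hx
          rw [mem_filter] at hx ⊢
          refine ⟨hx.1, ?_⟩
          by_contra hcon
          push Not at hcon
          have := Nat.log_mono_right (b := 2) hcon
          omega
        · intro _ _ _; positivity
      -- decomposition of T i
      have h3 : T i = ∑ p' ∈ (R.filter (fun p => Nat.log 2 p ≤ k)).filter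
            (fun p' => i < Nat.log 2 p'), (1 : ℝ) / p' + T k := by
        have h4 := sum_filter_add_sum_filter_not (R.filter (fun p => i < Nat.log 2 p))
          (fun p => Nat.log 2 p ≤ k) (fun p : ℕ => (1 : ℝ) / p)
        show ∑ p ∈ R.filter (fun p => i < Nat.log 2 p), (1 : ℝ) / p = _ +
          ∑ p ∈ R.filter (fun p => k < Nat.log 2 p), (1 : ℝ) / p
        rw [← h4]
        rw [filt1 R i k, filt2 R i k hlt]
      have h5 : ∑ p' ∈ (R.filter (fun p => Nat.log 2 p ≤ k)).filter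
            (fun p' => i < Nat.log 2 p'), (1 : ℝ) / p'
          = ∑ p' ∈ P'.filter (fun p' => i < Nat.log 2 p'), (1 : ℝ) / p'
            + ∑ p' ∈ Q0, (1 : ℝ) / p' := by
        rw [hP']
        have h6 : Q0 ⊆ (R.filter (fun p => Nat.log 2 p ≤ k)).filter
            (fun p' => i < Nat.log 2 p') := by
          intro x hx
          rw [mem_filter]
          refine ⟨hQ0R hx, ?_⟩
          have := hQ0 hx
          rw [hBs, mem_filter] at this
          omega
        rw [← sum_sdiff h6]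
        congr 1
        apply sum_congr _ (fun _ _ => rfl)
        ext x
        simp only [mem_sdiff, mem_filter]
        tauto
      have h7 : ∑ p ∈ Bs \ Q0, (1 : ℝ) / p
          ≤ ∑ p' ∈ P'.filter (fun p' => i < Nat.log 2 p'), (1 : ℝ) / p' := by
        apply sum_le_sum_of_subset_of_nonneg
        · intro x hx
          rw [mem_sdiff] at hx
          have hxk : Nat.log 2 x = k := by
            have := hx.1
            rw [hBs, mem_filter] at this
            exact this.2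
          rw [mem_filter, hP', mem_sdiff, mem_filter]
          exact ⟨⟨⟨hBsR hx.1, hxk.le⟩, hx.2⟩, by omega⟩
        · intro _ _ _; positivity
      have h8 : (2 : ℝ) / 2 ^ i = 2 * (1 / 2 ^ i) := by ring
      have h9 : (2 : ℝ) / 2 ^ k = 2 * (1 / N) := by rw [hNR]; ring
      rw [h8] at hTi'
      rw [h9] at hTk
      linarith
  obtain ⟨A, hA, hAs⟩ := stepC N (32 * k ^ 2) s (by have : 0 < k ^ 2 := by positivity
                                                    omega) hbigk hNs Q0 hQ0c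
    (fun a ha => hBsb a (hQ0 ha)) P' hd (by
      intro p hp
      rw [hP', mem_sdiff, mem_filter] at hp
      have h1 := log_bounds (hpos p (hRP hp.1.1))
      refine ⟨hpos p (hRP hp.1.1), lt_of_lt_of_le h1.2 ?_⟩
      exact Nat.mul_le_mul_left _ (Nat.pow_le_pow_right (by norm_num) hp.1.2)) hgap hP'mass
  refine ⟨Q0 ∪ P', ?_, A, hA, hAs⟩
  apply union_subset (hQ0.trans (filter_subset _ _))
  exact sdiff_subset.trans ((filter_subset _ _).trans hRP)

lemma exists_i0 : ∃ i0 : ℕ, 2 ≤ i0 ∧ ∀ i, i0 ≤ i → 200000 * (2 * (32 * i ^ 2)) ^ 7 ≤ 2 ^ i := by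
  have h := tendsto_pow_const_div_const_pow_of_one_lt 14 (r := (2 : ℝ)) (by norm_num)
  have h2 := h.eventually (gt_mem_nhds (show (0 : ℝ) < 1 / (200000 * 64 ^ 7) by norm_num))
  rw [Filter.eventually_atTop] at h2
  obtain ⟨a, ha⟩ := h2
  refine ⟨max a 2, le_max_right _ _, ?_⟩
  intro i hi
  have h3 := ha i ((le_max_left _ _).trans hi)
  rw [div_lt_div_iff₀ (by positivity) (by norm_num)] at h3
  have h4 : ((200000 * (2 * (32 * i ^ 2)) ^ 7 : ℕ) : ℝ) ≤ ((2 ^ i : ℕ) : ℝ) := by
    push_cast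
    calc (200000 : ℝ) * (2 * (32 * (i : ℝ) ^ 2)) ^ 7 = (i : ℝ) ^ 14 * (200000 * 64 ^ 7) := by ring
      _ ≤ 1 * 2 ^ i := h3.le
      _ = 2 ^ i := one_mul _
  exact_mod_cast h4

/-- if a set of primes of large reciprocal mass divides `m`, then `m` is a sum of distinct
proper divisors -/
lemma pseudo (m : ℕ) (hm : 0 < m) (X : Finset ℕ) (hX : ∀ p ∈ X, p.Prime ∧ p ∣ m)
    (A : Finset (Finset ℕ)) (hA : ∀ T ∈ A, T ⊂ X) (hs : ∑ T ∈ A, wt T = wt X) :
    ∃ s ⊆ m.properDivisors, ∑ i ∈ s, i = m := by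
  have hdvd : wt X ∣ m := by
    have h1 : X ⊆ m.primeFactors := by
      intro p hp
      rw [Nat.mem_primeFactors]
      exact ⟨(hX p hp).1, (hX p hp).2, by omega⟩
    exact (prod_dvd_prod_of_subset _ _ _ h1).trans (Nat.prod_primeFactors_dvd m)
  obtain ⟨c, hc⟩ := hdvd
  have hc0 : 0 < c := by
    rcases Nat.eq_zero_or_pos c with h | h
    · subst h; omega
    · exact h
  have hpf : ∀ T ⊆ X, (wt T).primeFactors = T := by
    intro T hT
    exact Nat.primeFactors_prod (fun p hp => (hX p (hT hp)).1)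
  have hinj : Set.InjOn (fun T : Finset ℕ => wt T * c) (A : Set (Finset ℕ)) := by
    intro T hT T' hT' hTT'
    have h1 : wt T = wt T' := Nat.eq_of_mul_eq_mul_right hc0 hTT'
    rw [← hpf T (hA T hT).1, h1, hpf T' (hA T' hT').1]
  refine ⟨A.image (fun T => wt T * c), ?_, ?_⟩
  · intro d hd
    rw [mem_image] at hd
    obtain ⟨T, hT, rfl⟩ := hd
    rw [Nat.mem_properDivisors]
    have hTX := hA T hT
    constructor
    · rw [hc]
      exact Nat.mul_dvd_mul_right (prod_dvd_prod_of_subset _ _ _ hTX.1) c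
    · rw [hc]
      apply Nat.mul_lt_mul_of_pos_right _ hc0
      have h1 : wt T ∣ wt X := prod_dvd_prod_of_subset _ _ _ hTX.1
      have h2 : 0 < wt X := wt_pos (fun p hp => (hX p hp).1.pos)
      apply lt_of_le_of_ne (Nat.le_of_dvd h2 h1)
      intro heq
      have h3 : T = X := by rw [← hpf T hTX.1, heq, hpf X (Subset.refl _)]
      exact hTX.2 (h3 ▸ Subset.refl _)
  · rw [sum_image hinj, ← sum_mul, hs, ← hc]

lemma geo (p v : ℕ) (hp : 2 ≤ p) :
    (∑ k ∈ range (v + 1), p ^ k) * p ≤ p ^ v * (p + 2) := by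
  induction v with
  | zero => simp
  | succ v ih =>
    rw [sum_range_succ, add_mul]
    have h1 : p ^ v * (p + 2) ≤ p ^ v * (2 * p) := Nat.mul_le_mul_left _ (by omega)
    calc (∑ k ∈ range (v + 1), p ^ k) * p + p ^ (v + 1) * p
        ≤ p ^ v * (2 * p) + p ^ (v + 1) * p := by omega
      _ = p ^ (v + 1) * (p + 2) := by ring

lemma abundancy_le (m : ℕ) (hm : 0 < m) :
    ((∑ i ∈ m.divisors, i : ℕ) : ℝ) / (m : ℝ) ≤ Real.exp (2 * ∑ p ∈ m.primeFactors, (1 : ℝ) / p) := by
  have hmR : (0 : ℝ) < m := by exact_mod_cast hm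
  rw [div_le_iff₀ hmR, Nat.sum_divisors (by omega)]
  have hfac : (m : ℝ) = ∏ p ∈ m.primeFactors, (p : ℝ) ^ m.factorization p := by
    have h1 := Nat.prod_factorization_pow_eq_self (n := m) (by omega)
    conv_lhs => rw [← h1]
    rw [Finsupp.prod, Nat.support_factorization]
    push_cast
    rfl
  rw [mul_sum, Real.exp_sum]
  conv_rhs => rw [hfac]
  rw [← prod_mul_distrib]
  push_cast
  apply prod_le_prod
  · intro p _; positivity
  · intro p hp
    have hpp := Nat.prime_of_mem_primeFactors hp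
    have hp0 : (0 : ℝ) < p := by exact_mod_cast hpp.pos
    have h1 := geo p (m.factorization p) hpp.two_le
    have h2 : (∑ k ∈ range (m.factorization p + 1), (p : ℝ) ^ k) * p
        ≤ (p : ℝ) ^ m.factorization p * (p + 2) := by exact_mod_cast h1
    have h3 : 2 * ((1 : ℝ) / p) + 1 ≤ Real.exp (2 * (1 / p)) := Real.add_one_le_exp _
    have h4 : (p : ℝ) ^ m.factorization p * (p + 2)
        = ((2 * ((1 : ℝ) / p) + 1) * (p : ℝ) ^ m.factorization p) * p := by
      field_simp; ring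
    rw [h4] at h2
    have h5 := le_of_mul_le_mul_right h2 hp0
    refine h5.trans ?_
    exact mul_le_mul_of_nonneg_right h3 (by positivity)

theorem main : ∃ C : ℝ, ∀ m : ℕ, 0 < m →
      (¬ ∃ s ⊆ m.properDivisors, ∑ i ∈ s, i = m) →
      ((∑ i ∈ m.divisors, i : ℕ) : ℝ) / (m : ℝ) ≤ C := by
  obtain ⟨i0, hi0, hbig⟩ := exists_i0
  refine ⟨Real.exp (2 * (4 + ∑ n ∈ range (2 ^ i0), (1 : ℝ) / n)), ?_⟩
  intro m hm hnot
  refine (abundancy_le m hm).trans ?_
  rw [Real.exp_le_exp]
  apply mul_le_mul_of_nonneg_left _ (by norm_num : (0 : ℝ) ≤ 2)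
  by_contra hcon
  push Not at hcon
  apply hnot
  set P := m.primeFactors.filter (fun p => 2 ^ i0 ≤ p) with hP
  have h1 : ∑ p ∈ m.primeFactors, (1 : ℝ) / p = ∑ p ∈ P, (1 : ℝ) / p +
      ∑ p ∈ m.primeFactors.filter (fun p => ¬ 2 ^ i0 ≤ p), (1 : ℝ) / p :=
    (sum_filter_add_sum_filter_not _ _ _).symm
  have h2 : ∑ p ∈ m.primeFactors.filter (fun p => ¬ 2 ^ i0 ≤ p), (1 : ℝ) / p
      ≤ ∑ n ∈ range (2 ^ i0), (1 : ℝ) / n := by
    apply sum_le_sum_of_subset_of_nonneg
    · intro p hp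
      rw [mem_filter] at hp
      rw [mem_range]
      omega
    · intro _ _ _; positivity
  have hmass : 4 ≤ ∑ p ∈ P, (1 : ℝ) / p := by linarith
  obtain ⟨X, hX, A, hA, hAs⟩ := select i0 hi0 hbig P (by
    intro p hp
    rw [hP, mem_filter] at hp
    exact ⟨Nat.prime_of_mem_primeFactors hp.1, hp.2⟩) hmass
  exact pseudo m hm X (by
    intro p hp
    have := hX hp
    rw [hP, mem_filter] at this
    exact ⟨Nat.prime_of_mem_primeFactors this.1, Nat.dvd_of_mem_primeFactors this.1⟩) A hA hAs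

end Pool.Agent.U445.Weird
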