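import Mathlib

set_option autoImplicit false

namespace Pool.Agent.U445.Wiener

open Finset Polynomial

/-- The Wiener polynomial `W(G; x) = ∑ x ^ d(u, v)`, the sum over all unordered pairs `{u, v}` of
distinct vertices. -/
noncomputable def wienerPoly (R : Type) [CommRing R] {V : Type} [Fintype V] (G : SimpleGraph V) :
    R[X] := by
  classical
  exact ∑ e ∈ (univ : Finset (Sym2 V)).filter (fun e => ¬ e.IsDiag),
    X ^ (Sym2.lift ⟨fun u v => G.dist u v, fun _ _ => G.dist_comm⟩ e)

theorem sum_sym2 {R : Type} [CommRing R] {V : Type} [Fintype V] [DecidableEq V]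
    [DecidablePred fun e : Sym2 V => ¬ e.IsDiag] [Fintype (Sym2 V)] (g : Sym2 V → R) :
    2 * ∑ e ∈ (univ : Finset (Sym2 V)).filter (fun e => ¬ e.IsDiag), g e
      = ∑ u : V, ∑ v : V, if u = v then 0 else g s(u, v) := by
  classical
  let _ : LinearOrder V := LinearOrder.lift' (Fintype.equivFin V) (Fintype.equivFin V).injective
  have h1 : ∑ e ∈ (univ : Finset (Sym2 V)).filter (fun e => ¬ e.IsDiag), g e
      = ∑ i ∈ (univ : Finset V).offDiag with i.1 < i.2, g s(i.1, i.2) := by
    rw [← Finset.sum_sym2_filter_not_isDiag]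
    refine Finset.sum_congr ?_ fun _ _ => rfl
    ext e
    simp
  have h2 : ∑ i ∈ (univ : Finset V).offDiag with i.1 < i.2, g s(i.1, i.2)
      = ∑ i ∈ (univ : Finset V).offDiag with ¬ (i.1 < i.2), g s(i.1, i.2) := by
    refine Finset.sum_nbij' (fun i => (i.2, i.1)) (fun i => (i.2, i.1)) ?_ ?_ ?_ ?_ ?_
    · intro i hi
      simp only [mem_filter, mem_offDiag, mem_univ, true_and] at hi ⊢
      exact ⟨Ne.symm hi.1, not_lt.2 hi.2.le⟩
    · intro i hi
      simp only [mem_filter, mem_offDiag, mem_univ, true_and] at hi ⊢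
      exact ⟨Ne.symm hi.1, lt_of_le_of_ne (not_lt.1 hi.2) (Ne.symm hi.1)⟩
    · intro i _; rfl
    · intro i _; rfl
    · intro i _
      rw [Sym2.eq_swap]
  have h3 : ∑ i ∈ (univ : Finset V).offDiag, g s(i.1, i.2)
      = ∑ u : V, ∑ v : V, if u = v then 0 else g s(u, v) := by
    rw [← Fintype.sum_prod_type' (f := fun u v : V => if u = v then 0 else g s(u, v))]
    rw [← Finset.sum_filter_not_add_sum_filter (s := (univ : Finset (V × V))) (fun i => i.1 = i.2)]
    rw [Finset.sum_eq_zero (s := (univ : Finset (V × V)).filter (fun i => i.1 = i.2)), add_zero]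
    · refine Finset.sum_congr ?_ ?_
      · ext i; simp
      · intro i hi
        have : ¬ i.1 = i.2 := by simpa using hi
        rw [if_neg this]
    · intro i hi
      have : i.1 = i.2 := by simpa using hi
      rw [if_pos this]
  rw [← h3, ← Finset.sum_filter_add_sum_filter_not ((univ : Finset V).offDiag) (fun i => i.1 < i.2),
    h1, ← h2]
  ring

/-- Twice the Wiener polynomial plus the number of vertices is the sum over all ordered pairs. -/
theorem two_mul_eval {R : Type} [CommRing R] {V : Type} [Fintype V] (G : SimpleGraph V) (x : R) :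
    2 * (wienerPoly R G).eval x + (Fintype.card V : R) = ∑ u : V, ∑ v : V, x ^ (G.dist u v) := by
  classical
  unfold wienerPoly
  rw [eval_finsetSum]
  have := sum_sym2 (fun e : Sym2 V => x ^ (Sym2.lift ⟨fun u v => G.dist u v, fun _ _ => G.dist_comm⟩ e))
  simp only [eval_pow, eval_X]
  have h4 : (Fintype.card V : R) = ∑ u : V, ∑ v : V, if u = v then (1 : R) else 0 := by
    simp
  rw [h4]
  convert_to ((2 : R) * ∑ e ∈ (univ : Finset (Sym2 V)).filter (fun e => ¬ e.IsDiag),
    x ^ (Sym2.lift ⟨fun u v => G.dist u v, fun _ _ => G.dist_comm⟩ e)) + _ = _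
  rw [this, ← Finset.sum_add_distrib]
  refine Finset.sum_congr rfl fun u _ => ?_
  rw [← Finset.sum_add_distrib]
  refine Finset.sum_congr rfl fun v _ => ?_
  by_cases h : u = v
  · subst h; simp
  · simp [h]

/-- the coefficients of the Wiener polynomial -/
theorem two_mul_coeff {R : Type} [CommRing R] {V : Type} [Fintype V] (G : SimpleGraph V) (k : ℕ)
    (hk : 0 < k) :
    2 * (wienerPoly R G).coeff k = ∑ u : V, ∑ v : V, if G.dist u v = k then (1 : R) else 0 := by
  classical
  unfold wienerPoly
  rw [finsetSum_coeff]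
  have := sum_sym2 (fun e : Sym2 V => (X ^ (Sym2.lift ⟨fun u v => G.dist u v,
    fun _ _ => G.dist_comm⟩ e) : R[X]).coeff k)
  convert this using 1
  refine Finset.sum_congr rfl fun u _ => Finset.sum_congr rfl fun v _ => ?_
  by_cases h : u = v
  · subst h
    simp [hk.ne]
  · simp only [if_neg h, Sym2.lift_mk, coeff_X_pow]
    by_cases h2 : G.dist u v = k
    · simp [h2]
    · simp [h2, Ne.symm h2]

/-- A function with the local properties of the distance is the distance. -/
theorem dist_eq_of {V : Type} (G : SimpleGraph V) (f : V → V → ℕ)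
    (hself : ∀ u, f u u = 0)
    (hstep : ∀ u v w, G.Adj u v → f u w ≤ f v w + 1)
    (hdesc : ∀ u w, u ≠ w → ∃ v, G.Adj u v ∧ f v w + 1 = f u w) :
    G.Preconnected ∧ ∀ u w, G.dist u w = f u w := by
  have hwalk : ∀ k : ℕ, ∀ u w, f u w = k → ∃ p : G.Walk u w, p.length = k := by
    intro k
    induction k with
    | zero =>
      intro u w h
      by_cases huw : u = w
      · subst huw; exact ⟨SimpleGraph.Walk.nil, rfl⟩
      · obtain ⟨v, _, hv⟩ := hdesc u w huw
        omega
    | succ k ih =>
      intro u w h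
      have huw : u ≠ w := by
        rintro rfl
        rw [hself] at h; omega
      obtain ⟨v, hadj, hv⟩ := hdesc u w huw
      obtain ⟨p, hp⟩ := ih v w (by omega)
      exact ⟨SimpleGraph.Walk.cons hadj p, by simp [hp]⟩
  have hlow : ∀ u w, ∀ p : G.Walk u w, f u w ≤ p.length := by
    intro u w p
    induction p with
    | nil => rw [hself]; exact Nat.zero_le _
    | cons h p ih =>
      rw [SimpleGraph.Walk.length_cons]
      exact (hstep _ _ _ h).trans (by omega)
  refine ⟨fun u w => ?_, fun u w => ?_⟩
  · obtain ⟨p, _⟩ := hwalk _ u w rfl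
    exact ⟨p⟩
  · obtain ⟨p, hp⟩ := hwalk _ u w rfl
    refine le_antisymm (hp ▸ SimpleGraph.dist_le p) ?_
    obtain ⟨q, hq⟩ := SimpleGraph.Reachable.exists_walk_length_eq_dist (G := G) (u := u) (v := w) ⟨p⟩
    rw [← hq]
    exact hlow u w q

/-- The graph in which every vertex except the root is joined to its parent. -/
def parentGraph {V : Type} (r : V) (par : V → V) (depth : V → ℕ)
    (hdep : ∀ v, v ≠ r → depth (par v) + 1 = depth v) : SimpleGraph V where
  Adj u v := (u ≠ r ∧ par u = v) ∨ (v ≠ r ∧ par v = u)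
  symm := ⟨fun u v h => h.symm⟩
  loopless := ⟨fun v h => by
    rcases h with ⟨h1, h2⟩ | ⟨h1, h2⟩
    · have := hdep v h1; rw [h2] at this; omega
    · have := hdep v h1; rw [h2] at this; omega⟩

section Parent

variable {V : Type} (r : V) (par : V → V) (depth : V → ℕ)
  (hdep : ∀ v, v ≠ r → depth (par v) + 1 = depth v)

theorem walk_to_root : ∀ k : ℕ, ∀ v, depth v = k →
    ∃ p : (parentGraph r par depth hdep).Walk v r, p.length ≤ k := by
  intro k
  induction k with
  | zero =>
    intro v hv
    by_cases h : v = r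
    · subst h; exact ⟨SimpleGraph.Walk.nil, le_refl _⟩
    · have := hdep v h; omega
  | succ k ih =>
    intro v hv
    by_cases h : v = r
    · subst h; exact ⟨SimpleGraph.Walk.nil, Nat.zero_le _⟩
    · have := hdep v h
      obtain ⟨p, hp⟩ := ih (par v) (by omega)
      have hadj : (parentGraph r par depth hdep).Adj v (par v) := Or.inl ⟨h, rfl⟩
      exact ⟨SimpleGraph.Walk.cons hadj p, by simp [hp]⟩

theorem parent_connected : (parentGraph r par depth hdep).Connected := by
  have : Nonempty V := ⟨r⟩
  refine ⟨fun u v => ?_⟩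
  obtain ⟨p, _⟩ := walk_to_root r par depth hdep _ u rfl
  obtain ⟨q, _⟩ := walk_to_root r par depth hdep _ v rfl
  exact ⟨p.append q.reverse⟩

theorem dist_le_depth (u v : V) : (parentGraph r par depth hdep).dist u v ≤ depth u + depth v := by
  obtain ⟨p, hp⟩ := walk_to_root r par depth hdep _ u rfl
  obtain ⟨q, hq⟩ := walk_to_root r par depth hdep _ v rfl
  have := SimpleGraph.dist_le (p.append q.reverse)
  rw [SimpleGraph.Walk.length_append, SimpleGraph.Walk.length_reverse] at this
  omega

theorem parent_isTree [Fintype V] : (parentGraph r par depth hdep).IsTree := by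
  classical
  rw [SimpleGraph.isTree_iff_connected_and_card]
  have hc := parent_connected r par depth hdep
  refine ⟨hc, le_antisymm ?_ hc.card_vert_le_card_edgeSet_add_one⟩
  have hsub : (parentGraph r par depth hdep).edgeSet ⊆
      (((univ : Finset V).erase r).image (fun v => s(v, par v)) : Finset (Sym2 V)) := by
    intro e he
    induction e using Sym2.ind with
    | _ u v =>
      rw [SimpleGraph.mem_edgeSet] at he
      simp only [coe_image, Set.mem_image, mem_coe, mem_erase, mem_univ, and_true]
      rcases he with ⟨h1, h2⟩ | ⟨h1, h2⟩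
      · exact ⟨u, h1, by rw [h2]⟩
      · exact ⟨v, h1, by rw [h2, Sym2.eq_swap]⟩
  have h1 : Nat.card (parentGraph r par depth hdep).edgeSet
      ≤ (((univ : Finset V).erase r).image (fun v => s(v, par v))).card := by
    rw [← Set.ncard_coe_finset, Nat.card_coe_set_eq]
    exact Set.ncard_le_ncard hsub (Finset.finite_toSet _)
  have h2 : (((univ : Finset V).erase r).image (fun v => s(v, par v))).card
      ≤ ((univ : Finset V).erase r).card := Finset.card_image_le
  have h3 : ((univ : Finset V).erase r).card + 1 = Nat.card V := by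
    rw [Finset.card_erase_add_one (mem_univ r), Finset.card_univ, Nat.card_eq_fintype_card]
  omega

end Parent

end Pool.Agent.U445.Wiener
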