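import Mathlib
import Pool.Agent.U445.WienerBase

set_option autoImplicit false

namespace Pool.Agent.U445.Wiener

open Finset Polynomial

/-! ### Copies of one rooted branch joined at a common root -/

section Branch

variable {B : Type} (N : ℕ) (dB : B → ℕ) (pB : B → Option B)
  (h0 : ∀ b, pB b = none → dB b = 1) (h1 : ∀ b b', pB b = some b' → dB b' + 1 = dB b)

def bPar : Option (Fin N × B) → Option (Fin N × B)
  | none => none
  | some x => (pB x.2).map (fun b => (x.1, b))

def bDepth : Option (Fin N × B) → ℕ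
  | none => 0
  | some x => dB x.2

include h0 h1 in
theorem bDep : ∀ v, v ≠ (none : Option (Fin N × B)) →
    bDepth N dB (bPar N pB v) + 1 = bDepth N dB v := by
  rintro (_ | ⟨i, b⟩) h
  · exact absurd rfl h
  · rcases hb : pB b with _ | b'
    · simp [bPar, bDepth, hb, h0 b hb]
    · simp [bPar, bDepth, hb, h1 b b' hb]

def bTree : SimpleGraph (Option (Fin N × B)) :=
  parentGraph none (bPar N pB) (bDepth N dB) (bDep N dB pB h0 h1)

theorem bTree_isTree [Fintype B] : (bTree N dB pB h0 h1).IsTree := parent_isTree _ _ _ _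

theorem bTree_dist_le (u v : Option (Fin N × B)) :
    (bTree N dB pB h0 h1).dist u v ≤ bDepth N dB u + bDepth N dB v := dist_le_depth _ _ _ _ u v

/-- the test function for the lower bound -/
def bTest (i : Fin N) (d : ℕ) : Option (Fin N × B) → ℤ
  | none => d
  | some x => if x.1 = i then |(dB x.2 : ℤ) - d| else dB x.2 + d

include h0 h1 in
theorem bTest_lip (i : Fin N) (d : ℕ) (hd : 1 ≤ d) (u v : Option (Fin N × B))
    (h : (bTree N dB pB h0 h1).Adj u v) : bTest N dB i d u ≤ bTest N dB i d v + 1 := by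
  have key : ∀ x : Fin N × B,
      |bTest N dB i d (some x) - bTest N dB i d (bPar N pB (some x))| ≤ 1 := by
    rintro ⟨j, b⟩
    rcases hb : pB b with _ | b'
    · have hb1 := h0 b hb
      simp only [bTest, bPar, hb, Option.map_none, hb1]
      by_cases hj : j = i
      · rw [if_pos hj]
        have : |((1 : ℕ) : ℤ) - d| = d - 1 := by
          rw [abs_of_nonpos] <;> push_cast <;> omega
        rw [this]
        rw [abs_le]; constructor <;> omega
      · rw [if_neg hj]
        rw [abs_le]; constructor <;> push_cast <;> omega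
    · have hb1 := h1 b b' hb
      simp only [bTest, bPar, hb, Option.map_some]
      have hz : (dB b : ℤ) = dB b' + 1 := by exact_mod_cast hb1.symm
      by_cases hj : j = i
      · rw [if_pos hj, if_pos hj]
        have := abs_abs_sub_abs_le_abs_sub ((dB b : ℤ) - d) ((dB b' : ℤ) - d)
        refine this.trans ?_
        rw [hz]; ring_nf; simp
      · rw [if_neg hj, if_neg hj, hz]
        ring_nf; simp
  rcases h with ⟨hu, hv⟩ | ⟨hv, hu⟩
  · subst hv
    rcases u with _ | x
    · exact absurd rfl hu
    · have := (abs_le.1 (key x)).2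
      linarith
  · subst hu
    rcases v with _ | x
    · exact absurd rfl hv
    · have := (abs_le.1 (key x)).1
      linarith

theorem lip_walk {V : Type} (G : SimpleGraph V) (f : V → ℤ) (hf : ∀ u v, G.Adj u v → f u ≤ f v + 1)
    {u w : V} (p : G.Walk u w) : f u ≤ f w + p.length := by
  induction p with
  | nil => simp
  | cons h p ih =>
    have := hf _ _ h
    rw [SimpleGraph.Walk.length_cons]
    push_cast
    linarith

theorem bTree_dist_of_ne {i j : Fin N} (hij : i ≠ j) (b b' : B) :
    (bTree N dB pB h0 h1).dist (some (i, b)) (some (j, b')) = dB b + dB b' := by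
  refine le_antisymm (bTree_dist_le N dB pB h0 h1 _ _) ?_
  have hb' : 1 ≤ dB b' := by
    rcases hb : pB b' with _ | c
    · rw [h0 b' hb]
    · have := h1 b' c hb; omega
  have hc : (bTree N dB pB h0 h1).Connected := parent_connected _ _ _ _
  obtain ⟨p, hp⟩ := hc.exists_walk_length_eq_dist (some (i, b)) (some (j, b'))
  have := lip_walk _ (bTest N dB j (dB b')) (bTest_lip N dB pB h0 h1 j (dB b') hb') p
  simp only [bTest, if_neg hij, if_true, sub_self, abs_zero] at this
  rw [← hp]
  omega

theorem bTree_dist_none (x : Fin N × B) :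
    (bTree N dB pB h0 h1).dist none (some x) = dB x.2 := by
  refine le_antisymm ?_ ?_
  · have := bTree_dist_le N dB pB h0 h1 none (some x)
    simpa [bDepth] using this
  · have hc : (bTree N dB pB h0 h1).Connected := parent_connected _ _ _ _
    obtain ⟨p, hp⟩ := hc.exists_walk_length_eq_dist none (some x)
    have hb' : 1 ≤ dB x.2 := by
      rcases hb : pB x.2 with _ | c
      · rw [h0 _ hb]
      · have := h1 _ c hb; omega
    have := lip_walk _ (bTest N dB x.1 (dB x.2)) (bTest_lip N dB pB h0 h1 x.1 (dB x.2) hb') p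
    simp only [bTest, if_true, sub_self, abs_zero] at this
    rw [← hp]
    omega

/-- The value of the Wiener polynomial of the tree up to the contribution of single branches. -/
theorem bTree_norm_le [Fintype B] (z : ℂ) (ζ : ℝ) (hζ1 : 1 ≤ ζ) (hζ : ‖z‖ ≤ ζ) (m : ℕ)
    (hm : ∀ b, dB b ≤ m) :
    ‖2 * (wienerPoly ℂ (bTree N dB pB h0 h1)).eval z‖ ≤
      2 * N * ‖∑ b, z ^ dB b‖ + N ^ 2 * ‖∑ b, z ^ dB b‖ ^ 2
        + N * (Fintype.card B) ^ 2 * ζ ^ (2 * m) + N * Fintype.card B := by
  classical
  have hev := two_mul_eval (bTree N dB pB h0 h1) z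
  have hcard : (Fintype.card (Option (Fin N × B)) : ℂ) = 1 + N * Fintype.card B := by
    rw [Fintype.card_option, Fintype.card_prod, Fintype.card_fin]; push_cast; ring
  rw [hcard] at hev
  set P : ℂ := ∑ b, z ^ dB b with hP
  have e1 : ∑ x : Fin N × B, z ^ ((bTree N dB pB h0 h1).dist none (some x)) = N * P := by
    rw [Fintype.sum_prod_type]
    simp only [bTree_dist_none]
    simp [hP]
  have e2 : ∑ x : Fin N × B, z ^ ((bTree N dB pB h0 h1).dist (some x) none) = N * P := by
    rw [← e1]
    refine Finset.sum_congr rfl fun x _ => ?_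
    rw [SimpleGraph.dist_comm]
  have e3 : ∑ x : Fin N × B, ∑ y : Fin N × B, z ^ ((bTree N dB pB h0 h1).dist (some x) (some y))
      = N * (N - 1) * P ^ 2 + ∑ i : Fin N, ∑ b : B, ∑ b' : B,
          z ^ ((bTree N dB pB h0 h1).dist (some (i, b)) (some (i, b'))) := by
    have h2 : ∀ i j : Fin N, ∑ b : B, ∑ b' : B,
        z ^ ((bTree N dB pB h0 h1).dist (some (i, b)) (some (j, b')))
        = P ^ 2 + if i = j then (∑ b : B, ∑ b' : B,
          z ^ ((bTree N dB pB h0 h1).dist (some (i, b)) (some (i, b')))) - P ^ 2 else 0 := by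
      intro i j
      by_cases hij : i = j
      · subst hij; simp
      · rw [if_neg hij, add_zero]
        simp only [bTree_dist_of_ne N dB pB h0 h1 hij]
        simp only [pow_add, ← Finset.mul_sum, ← Finset.sum_mul]
        rw [hP]; ring
    calc ∑ x : Fin N × B, ∑ y : Fin N × B, z ^ ((bTree N dB pB h0 h1).dist (some x) (some y))
        = ∑ i : Fin N, ∑ j : Fin N, ∑ b : B, ∑ b' : B,
            z ^ ((bTree N dB pB h0 h1).dist (some (i, b)) (some (j, b'))) := by
          rw [Fintype.sum_prod_type]
          refine Finset.sum_congr rfl fun i _ => ?_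
          rw [Finset.sum_comm]
          rw [Fintype.sum_prod_type]
          refine Finset.sum_congr rfl fun j _ => ?_
          rw [Finset.sum_comm]
      _ = _ := by
          rw [Finset.sum_congr rfl fun i _ => Finset.sum_congr rfl fun j _ => h2 i j]
          simp only [Finset.sum_add_distrib, Finset.sum_ite_eq, Finset.mem_univ, if_true,
            Finset.sum_sub_distrib]
          simp only [Finset.sum_const, Finset.card_univ, Fintype.card_fin, nsmul_eq_mul]
          ring
  have hall : ∑ u : Option (Fin N × B), ∑ v : Option (Fin N × B),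
      z ^ ((bTree N dB pB h0 h1).dist u v) = 1 + 2 * (N * P) + (N * (N - 1) * P ^ 2
        + ∑ i : Fin N, ∑ b : B, ∑ b' : B,
          z ^ ((bTree N dB pB h0 h1).dist (some (i, b)) (some (i, b')))) := by
    rw [Fintype.sum_option, Fintype.sum_option, e1]
    have e7 : ∑ x : Fin N × B, ∑ v : Option (Fin N × B),
        z ^ ((bTree N dB pB h0 h1).dist (some x) v)
        = ∑ x : Fin N × B, (z ^ ((bTree N dB pB h0 h1).dist (some x) none)
          + ∑ y : Fin N × B, z ^ ((bTree N dB pB h0 h1).dist (some x) (some y))) :=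
      Finset.sum_congr rfl fun x _ => Fintype.sum_option _
    rw [e7, Finset.sum_add_distrib, e2, e3]
    rw [SimpleGraph.dist_self, pow_zero]
    ring
  rw [hall] at hev
  have hmain : 2 * (wienerPoly ℂ (bTree N dB pB h0 h1)).eval z
      = 2 * N * P + (N * (N - 1)) * P ^ 2 + (∑ i : Fin N, ∑ b : B, ∑ b' : B,
          z ^ ((bTree N dB pB h0 h1).dist (some (i, b)) (some (i, b')))) - N * Fintype.card B := by
    linear_combination hev
  rw [hmain]
  have hE : ‖∑ i : Fin N, ∑ b : B, ∑ b' : B,
          z ^ ((bTree N dB pB h0 h1).dist (some (i, b)) (some (i, b')))‖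
        ≤ N * (Fintype.card B) ^ 2 * ζ ^ (2 * m) := by
    calc _ ≤ ∑ i : Fin N, ∑ b : B, ∑ b' : B, ζ ^ (2 * m) := by
          refine norm_sum_le_of_le _ fun i _ => norm_sum_le_of_le _ fun b _ =>
            norm_sum_le_of_le _ fun b' _ => ?_
          rw [norm_pow]
          have hd := bTree_dist_le N dB pB h0 h1 (some (i, b)) (some (i, b'))
          simp only [bDepth] at hd
          have h2 := hm b
          have h3 := hm b'
          calc ‖z‖ ^ _ ≤ ζ ^ ((bTree N dB pB h0 h1).dist (some (i, b)) (some (i, b'))) :=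
                pow_le_pow_left₀ (norm_nonneg _) hζ _
            _ ≤ ζ ^ (2 * m) := pow_le_pow_right₀ hζ1 (by omega)
      _ = _ := by
          simp only [Finset.sum_const, Finset.card_univ, Fintype.card_fin, nsmul_eq_mul]
          ring
  have hN1 : ‖(N : ℂ) * (N - 1)‖ ≤ (N : ℝ) ^ 2 := by
    rcases Nat.eq_zero_or_pos N with h | h
    · subst h; simp
    · have h4 : (N : ℂ) * (N - 1) = ((N * (N - 1) : ℝ) : ℂ) := by push_cast; ring
      have h5 : (1 : ℝ) ≤ N := by exact_mod_cast h
      rw [h4, Complex.norm_real, Real.norm_eq_abs, abs_of_nonneg (by nlinarith)]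
      nlinarith
  calc _ ≤ ‖2 * (N : ℂ) * P‖ + ‖((N : ℂ) * (N - 1)) * P ^ 2‖ + ‖∑ i : Fin N, ∑ b : B, ∑ b' : B,
          z ^ ((bTree N dB pB h0 h1).dist (some (i, b)) (some (i, b')))‖
          + ‖(N : ℂ) * Fintype.card B‖ := by
        refine (norm_sub_le _ _).trans ?_
        refine add_le_add ((norm_add_le _ _).trans ?_) le_rfl
        exact add_le_add (norm_add_le _ _) le_rfl
    _ ≤ _ := by
        have e4 : ‖2 * (N : ℂ) * P‖ = 2 * N * ‖P‖ := by simp
        have e5 : ‖((N : ℂ) * (N - 1)) * P ^ 2‖ ≤ N ^ 2 * ‖P‖ ^ 2 := by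
          rw [norm_mul, norm_pow]
          exact mul_le_mul_of_nonneg_right hN1 (by positivity)
        have e6 : ‖(N : ℂ) * Fintype.card B‖ = N * Fintype.card B := by simp
        rw [e4, e6]
        linarith

/-- The coefficient at twice the depth. -/
theorem bTree_coeff [Fintype B] (m : ℕ) (hm0 : 0 < m) (M : ℕ)
    (hM : M ≤ (univ.filter (fun b => dB b = m)).card) :
    ∃ c : ℕ, 2 * (wienerPoly ℂ (bTree N dB pB h0 h1)).coeff (2 * m) = c ∧ N * (N - 1) * M ^ 2 ≤ c := by
  classical
  refine ⟨((univ : Finset (Option (Fin N × B) × Option (Fin N × B))).filter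
    (fun p => (bTree N dB pB h0 h1).dist p.1 p.2 = 2 * m)).card, ?_, ?_⟩
  · rw [two_mul_coeff _ _ (by omega), Finset.card_filter]
    push_cast
    rw [Fintype.sum_prod_type]
  · let Sm := (univ : Finset B).filter (fun b => dB b = m)
    let I := ((univ : Finset (Fin N)).offDiag) ×ˢ (Sm ×ˢ Sm)
    have hI : I.card = N * (N - 1) * Sm.card ^ 2 := by
      simp only [I, Finset.card_product, Finset.offDiag_card, Finset.card_univ, Fintype.card_fin]
      rw [Nat.mul_sub, mul_one, pow_two]
    calc N * (N - 1) * M ^ 2 ≤ N * (N - 1) * Sm.card ^ 2 :=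
          Nat.mul_le_mul_left _ (Nat.pow_le_pow_left hM 2)
      _ = I.card := hI.symm
      _ ≤ _ := by
          refine Finset.card_le_card_of_injOn
            (fun x => (some (x.1.1, x.2.1), some (x.1.2, x.2.2))) ?_ ?_
          · rintro ⟨⟨i, j⟩, ⟨b, b'⟩⟩ hx
            simp only [I, Sm, coe_product, Set.mem_prod, mem_coe, mem_offDiag, mem_univ, true_and,
              mem_filter] at hx
            simp only [coe_filter, mem_univ, true_and, Set.mem_ofPred_eq]
            rw [bTree_dist_of_ne N dB pB h0 h1 hx.1, hx.2.1, hx.2.2]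
            ring
          · rintro ⟨⟨i, j⟩, ⟨b, b'⟩⟩ _ ⟨⟨i', j'⟩, ⟨c, c'⟩⟩ _ h
            simp only [Prod.mk.injEq, Option.some.injEq] at h
            obtain ⟨⟨rfl, rfl⟩, ⟨rfl, rfl⟩⟩ := h
            rfl

theorem bTree_natDegree_le [Fintype B] (m : ℕ) (hm : ∀ b, dB b ≤ m) :
    (wienerPoly ℂ (bTree N dB pB h0 h1)).natDegree ≤ 2 * m := by
  classical
  unfold wienerPoly
  refine natDegree_sum_le_of_forall_le _ _ fun e _ => ?_
  refine (natDegree_X_pow_le _).trans ?_
  induction e using Sym2.ind with
  | _ u v =>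
    rw [Sym2.lift_mk]
    refine (bTree_dist_le N dB pB h0 h1 u v).trans ?_
    have : ∀ w : Option (Fin N × B), bDepth N dB w ≤ m := by
      rintro (_ | x)
      · exact Nat.zero_le _
      · exact hm x.2
    have h2 := this u
    have h3 := this v
    omega

end Branch

/-! ### Roots near a point where the polynomial is small -/

theorem pow_card_le_prod (s : Multiset ℂ) (z : ℂ) (ε : ℝ) (hε : 0 ≤ ε) (h : ∀ a ∈ s, ε ≤ ‖z - a‖) :
    ε ^ (Multiset.card s) ≤ ‖(s.map (fun a => z - a)).prod‖ := by
  induction s using Multiset.induction_on with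
  | empty => simp
  | cons a s ih =>
    rw [Multiset.map_cons, Multiset.prod_cons, norm_mul, Multiset.card_cons, pow_succ, mul_comm]
    exact mul_le_mul (h a (Multiset.mem_cons_self a s))
      (ih fun b hb => h b (Multiset.mem_cons_of_mem hb)) (by positivity) (norm_nonneg _)

theorem exists_root_near (p : ℂ[X]) (z : ℂ) (ε : ℝ) (hε : 0 < ε)
    (h : ‖p.eval z‖ < ‖p.leadingCoeff‖ * ε ^ p.natDegree) :
    ∃ w, p.eval w = 0 ∧ ‖z - w‖ < ε := by
  by_contra hcon
  push Not at hcon
  have hp : p ≠ 0 := by
    rintro rfl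
    simp at h
  have hcard : Multiset.card p.roots = p.natDegree := splits_iff_card_roots.1 (IsAlgClosed.splits p)
  have hfac := C_leadingCoeff_mul_prod_multiset_X_sub_C hcard
  have hev : p.eval z = p.leadingCoeff * (p.roots.map (fun a => z - a)).prod := by
    conv_lhs => rw [← hfac]
    rw [eval_mul, eval_C, eval_multiset_prod, Multiset.map_map]
    congr 2
    refine Multiset.map_congr rfl fun a _ => ?_
    simp
  have hge : ε ^ p.natDegree ≤ ‖(p.roots.map (fun a => z - a)).prod‖ := by
    rw [← hcard]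
    refine pow_card_le_prod _ z ε hε.le fun a ha => hcon a ?_
    exact (mem_roots hp).1 ha
  rw [hev, norm_mul] at h
  have := mul_le_mul_of_nonneg_left hge (norm_nonneg p.leadingCoeff)
  linarith

end Pool.Agent.U445.Wiener
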