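import Mathlib
import Pool.Agent.U445.WienerBase

set_option autoImplicit false

namespace Pool.Agent.U445.Wiener

open Finset Polynomial

section Spider

variable (k : ℕ) (A : Fin k → ℕ)

/-- Vertices of the tree: a centre, `k` middle vertices, `A i` leaves at the `i`-th middle one. -/
abbrev SV := Option (Fin k ⊕ (Σ i : Fin k, Fin (A i)))

def sPar : SV k A → SV k A
  | none => none
  | some (Sum.inl _) => none
  | some (Sum.inr x) => some (Sum.inl x.1)

def sDepth : SV k A → ℕ
  | none => 0
  | some (Sum.inl _) => 1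
  | some (Sum.inr _) => 2

theorem sDep : ∀ v, v ≠ (none : SV k A) → sDepth k A (sPar k A v) + 1 = sDepth k A v := by
  rintro (_ | _ | _) h
  · exact absurd rfl h
  · rfl
  · rfl

def spider : SimpleGraph (SV k A) := parentGraph none (sPar k A) (sDepth k A) (sDep k A)

def sDist : SV k A → SV k A → ℕ
  | none, v => sDepth k A v
  | some (Sum.inl _), none => 1
  | some (Sum.inr _), none => 2
  | some (Sum.inl i), some (Sum.inl i') => if i = i' then 0 else 2
  | some (Sum.inl i), some (Sum.inr y) => if i = y.1 then 1 else 3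
  | some (Sum.inr x), some (Sum.inl i') => if x.1 = i' then 1 else 3
  | some (Sum.inr x), some (Sum.inr y) => if x = y then 0 else if x.1 = y.1 then 2 else 4

theorem spider_dist (u v : SV k A) : (spider k A).dist u v = sDist k A u v := by
  refine (dist_eq_of (spider k A) (sDist k A) ?_ ?_ ?_).2 u v
  · rintro (_ | _ | _) <;> simp [sDist, sDepth]
  · intro u v w h
    rcases h with ⟨hu, hv⟩ | ⟨hv, hu⟩
    · subst hv
      rcases u with _ | i | x
      · exact absurd rfl hu
      · rcases w with _ | j | y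
        · simp [sDist, sPar, sDepth]
        · simp only [sDist, sPar, sDepth]; split_ifs <;> omega
        · simp only [sDist, sPar, sDepth]; split_ifs <;> omega
      · rcases w with _ | j | y
        · simp [sDist, sPar]
        · simp only [sDist, sPar]; split_ifs <;> omega
        · simp only [sDist, sPar]; split_ifs <;> omega
    · subst hu
      rcases v with _ | i | x
      · exact absurd rfl hv
      · rcases w with _ | j | y
        · simp [sDist, sPar, sDepth]
        · simp only [sDist, sPar, sDepth]; split_ifs <;> omega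
        · simp only [sDist, sPar, sDepth]; split_ifs <;> omega
      · rcases w with _ | j | y
        · simp [sDist, sPar]
        · simp only [sDist, sPar]; split_ifs <;> omega
        · simp only [sDist, sPar]
          by_cases hxy : x = y
          · subst hxy; simp
          · simp only [if_neg hxy]; split_ifs <;> omega
  · intro u w huw
    rcases u with _ | i | x
    · rcases w with _ | j | y
      · exact absurd rfl huw
      · exact ⟨some (Sum.inl j), Or.inr ⟨by simp, rfl⟩, by simp [sDist, sDepth]⟩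
      · exact ⟨some (Sum.inl y.1), Or.inr ⟨by simp, rfl⟩, by simp [sDist, sDepth]⟩
    · rcases w with _ | j | y
      · exact ⟨none, Or.inl ⟨by simp, rfl⟩, by simp [sDist, sDepth]⟩
      · have hij : i ≠ j := fun h => huw (by rw [h])
        exact ⟨none, Or.inl ⟨by simp, rfl⟩, by simp [sDist, sDepth, hij]⟩
      · by_cases hij : i = y.1
        · refine ⟨some (Sum.inr y), Or.inr ⟨by simp, ?_⟩, by simp [sDist, hij]⟩
          simp [sPar, hij]
        · exact ⟨none, Or.inl ⟨by simp, rfl⟩, by simp [sDist, sDepth, hij]⟩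
    · refine ⟨some (Sum.inl x.1), Or.inl ⟨by simp, rfl⟩, ?_⟩
      rcases w with _ | j | y
      · simp [sDist]
      · simp only [sDist]; split_ifs <;> rfl
      · have hxy : x ≠ y := fun h => huw (by rw [h])
        simp only [sDist, if_neg hxy]; split_ifs <;> rfl

theorem spider_isTree : (spider k A).IsTree := parent_isTree _ _ _ _

theorem spider_sum (z : ℝ) :
    ∑ u : SV k A, ∑ v : SV k A, z ^ (sDist k A u v)
      = 1 + 2 * (k * z + (∑ i, (A i : ℝ)) * z ^ 2) + (k ^ 2 * z ^ 2 + (1 - z ^ 2) * k)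
        + 2 * (k * (∑ i, (A i : ℝ)) * z ^ 3 + (z - z ^ 3) * (∑ i, (A i : ℝ)))
        + ((∑ i, (A i : ℝ)) ^ 2 * z ^ 4 + (z ^ 2 - z ^ 4) * (∑ i, (A i : ℝ) ^ 2)
          + (1 - z ^ 2) * (∑ i, (A i : ℝ))) := by
  simp only [Fintype.sum_option, Fintype.sum_sum_type]
  have hS : ∀ c : ℝ, ∑ _y : (Σ i : Fin k, Fin (A i)), c = (∑ i, (A i : ℝ)) * c := by
    intro c
    rw [Fintype.sum_sigma]
    simp only [Finset.sum_const, Finset.card_univ, Fintype.card_fin, nsmul_eq_mul]
    rw [Finset.sum_mul]
  have e1 : ∑ x : Fin k, z ^ (sDist k A none (some (Sum.inl x))) = k * z := by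
    simp [sDist, sDepth]
  have e2 : ∑ x : (Σ i : Fin k, Fin (A i)), z ^ (sDist k A none (some (Sum.inr x)))
      = (∑ i, (A i : ℝ)) * z ^ 2 := by
    simp only [sDist, sDepth]
    rw [hS]
  have e3 : ∑ x : Fin k, z ^ (sDist k A (some (Sum.inl x)) none) = k * z := by
    simp [sDist]
  have e4 : ∑ x : (Σ i : Fin k, Fin (A i)), z ^ (sDist k A (some (Sum.inr x)) none)
      = (∑ i, (A i : ℝ)) * z ^ 2 := by
    simp only [sDist]
    rw [hS]
  have e5 : ∑ x : Fin k, ∑ y : Fin k, z ^ (sDist k A (some (Sum.inl x)) (some (Sum.inl y)))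
      = k ^ 2 * z ^ 2 + (1 - z ^ 2) * k := by
    have : ∀ x y : Fin k, z ^ (sDist k A (some (Sum.inl x)) (some (Sum.inl y)))
        = z ^ 2 + (if x = y then (1 - z ^ 2) else 0) := by
      intro x y
      simp only [sDist]
      split_ifs <;> simp
    simp only [this, Finset.sum_add_distrib, Finset.sum_ite_eq, Finset.mem_univ, if_true]
    simp only [Finset.sum_const, Finset.card_univ, Fintype.card_fin, nsmul_eq_mul]
    ring
  have e6 : ∑ x : Fin k, ∑ y : (Σ i : Fin k, Fin (A i)),
      z ^ (sDist k A (some (Sum.inl x)) (some (Sum.inr y)))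
      = k * (∑ i, (A i : ℝ)) * z ^ 3 + (z - z ^ 3) * (∑ i, (A i : ℝ)) := by
    have : ∀ (x : Fin k) (y : (Σ i : Fin k, Fin (A i))),
        z ^ (sDist k A (some (Sum.inl x)) (some (Sum.inr y)))
        = z ^ 3 + (if x = y.1 then (z - z ^ 3) else 0) := by
      intro x y
      simp only [sDist]
      split_ifs <;> ring
    simp only [this, Finset.sum_add_distrib, hS]
    rw [Finset.sum_comm]
    simp only [Finset.sum_ite_eq', Finset.mem_univ, if_true, hS]
    simp only [Finset.sum_const, Finset.card_univ, Fintype.card_fin, nsmul_eq_mul]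
    ring
  have e7 : ∑ x : (Σ i : Fin k, Fin (A i)), ∑ y : Fin k,
      z ^ (sDist k A (some (Sum.inr x)) (some (Sum.inl y)))
      = k * (∑ i, (A i : ℝ)) * z ^ 3 + (z - z ^ 3) * (∑ i, (A i : ℝ)) := by
    rw [← e6, Finset.sum_comm]
    refine Finset.sum_congr rfl fun x _ => Finset.sum_congr rfl fun y _ => ?_
    simp only [sDist, eq_comm]
  have e8 : ∑ x : (Σ i : Fin k, Fin (A i)), ∑ y : (Σ i : Fin k, Fin (A i)),
      z ^ (sDist k A (some (Sum.inr x)) (some (Sum.inr y)))
      = (∑ i, (A i : ℝ)) ^ 2 * z ^ 4 + (z ^ 2 - z ^ 4) * (∑ i, (A i : ℝ) ^ 2)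
          + (1 - z ^ 2) * (∑ i, (A i : ℝ)) := by
    have : ∀ (x y : (Σ i : Fin k, Fin (A i))),
        z ^ (sDist k A (some (Sum.inr x)) (some (Sum.inr y)))
        = z ^ 4 + (if x.1 = y.1 then (z ^ 2 - z ^ 4) else 0) + (if x = y then (1 - z ^ 2) else 0) := by
      intro x y
      simp only [sDist]
      by_cases hxy : x = y
      · subst hxy; simp
      · simp only [if_neg hxy]
        split_ifs <;> ring
    simp only [this, Finset.sum_add_distrib, hS]
    have h1 : ∑ x : (Σ i : Fin k, Fin (A i)), ∑ y : (Σ i : Fin k, Fin (A i)),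
        (if x.1 = y.1 then (z ^ 2 - z ^ 4) else 0) = (z ^ 2 - z ^ 4) * (∑ i, (A i : ℝ) ^ 2) := by
      have h2 : ∀ x : (Σ i : Fin k, Fin (A i)), ∑ y : (Σ i : Fin k, Fin (A i)),
          (if x.1 = y.1 then (z ^ 2 - z ^ 4) else 0) = (A x.1 : ℝ) * (z ^ 2 - z ^ 4) := by
        intro x
        rw [Fintype.sum_sigma]
        have h3 : ∀ i : Fin k, ∑ _y : Fin (A i), (if x.1 = i then (z ^ 2 - z ^ 4) else 0)
            = if x.1 = i then (A i : ℝ) * (z ^ 2 - z ^ 4) else 0 := by
          intro i
          split_ifs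
          · simp; ring
          · simp
        rw [Finset.sum_congr rfl fun i _ => h3 i]
        simp only [Finset.sum_ite_eq, Finset.mem_univ, if_true]
      simp only [h2]
      rw [Fintype.sum_sigma]
      simp only [Finset.sum_const, Finset.card_univ, Fintype.card_fin, nsmul_eq_mul]
      rw [Finset.mul_sum]
      refine Finset.sum_congr rfl fun i _ => ?_
      ring
    rw [h1]
    simp only [Finset.sum_ite_eq, Finset.mem_univ, if_true, hS]
    ring
  have e0 : z ^ (sDist k A none none) = 1 := by simp [sDist, sDepth]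
  simp only [Finset.sum_add_distrib]
  rw [e0, e1, e2, e3, e4, e5, e6, e7, e8]
  ring

theorem spider_card : (Fintype.card (SV k A) : ℝ) = 1 + k + ∑ i, (A i : ℝ) := by
  simp only [Fintype.card_option, Fintype.card_sum, Fintype.card_fin, Fintype.card_sigma]
  push_cast
  ring

theorem spider_eval (z : ℝ) :
    2 * (wienerPoly ℝ (spider k A)).eval z
      = 2 * (k + ∑ i, (A i : ℝ)) * z + (k ^ 2 - k + (∑ i, (A i : ℝ) ^ 2) + ∑ i, (A i : ℝ)) * z ^ 2
        + 2 * (∑ i, (A i : ℝ)) * (k - 1) * z ^ 3
        + ((∑ i, (A i : ℝ)) ^ 2 - ∑ i, (A i : ℝ) ^ 2) * z ^ 4 := by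
  have h1 := two_mul_eval (spider k A) z
  simp only [spider_dist] at h1
  rw [spider_sum, spider_card] at h1
  linarith

end Spider

end Pool.Agent.U445.Wiener
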